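import Mathlib

set_option autoImplicit false
set_option linter.unusedSectionVars false

/-!
A mean ergodic estimate for products of mixing transformations, and transfer of finite-valued
functions along multiple mixing.
-/

namespace Pool.Agent.R202.MM

open MeasureTheory Set Filter Topology
open scoped ENNReal

/-- distance of natural numbers -/
def nd (t s : ℕ) : ℕ := (t - s) + (s - t)

lemma cesaro (ψ : ℕ → ℝ) (hψ : Tendsto ψ atTop (𝓝 0)) (hb : ∀ n, |ψ n| ≤ 1) (ε : ℝ) (hε : 0 < ε) :
    ∃ L0 : ℕ, 0 < L0 ∧ ∀ L ≥ L0,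
      (∑ t ∈ Finset.range L, ∑ s ∈ Finset.range L, |ψ (nd t s)|) / (L : ℝ) ^ 2 ≤ ε := by
  rw [Metric.tendsto_atTop] at hψ
  obtain ⟨N, hN⟩ := hψ (ε / 2) (by positivity)
  obtain ⟨L1, hL1⟩ := exists_nat_gt (4 * N / ε)
  refine ⟨L1 + 1, by omega, fun L hL => ?_⟩
  have hLpos : (0 : ℝ) < L := by
    have : 0 < L := by omega
    exact_mod_cast this
  have hLL : 4 * N / ε < L := by
    refine hL1.trans_le ?_
    exact_mod_cast (by omega : L1 ≤ L)
  have hin : ∀ t ∈ Finset.range L, ∑ s ∈ Finset.range L, |ψ (nd t s)| ≤ 2 * N + L * (ε / 2) := by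
    intro t _
    have h1 : ∀ s ∈ Finset.range L, |ψ (nd t s)| ≤ (if nd t s < N then (1 : ℝ) else 0) + ε / 2 := by
      intro s _
      split_ifs with h
      · have := hb (nd t s)
        linarith
      · have := hN (nd t s) (by omega)
        rw [Real.dist_eq, sub_zero] at this
        linarith
    refine (Finset.sum_le_sum h1).trans ?_
    rw [Finset.sum_add_distrib, Finset.sum_const, Finset.card_range, nsmul_eq_mul]
    refine add_le_add ?_ le_rfl
    rw [← Finset.sum_filter, Finset.sum_const, nsmul_eq_mul, mul_one]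
    have h2 : (Finset.range L).filter (fun s => nd t s < N) ⊆ Finset.Ico (t + 1 - N) (t + N) := by
      intro s hs
      rw [Finset.mem_filter, nd] at hs
      rw [Finset.mem_Ico]
      omega
    have h3 := Finset.card_le_card h2
    rw [Nat.card_Ico] at h3
    have h4 : ((Finset.range L).filter (fun s => nd t s < N)).card ≤ 2 * N := by omega
    exact_mod_cast h4
  have h5 : ∑ t ∈ Finset.range L, ∑ s ∈ Finset.range L, |ψ (nd t s)| ≤ L * (2 * N + L * (ε / 2)) := by
    refine (Finset.sum_le_sum hin).trans ?_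
    rw [Finset.sum_const, Finset.card_range, nsmul_eq_mul]
  rw [div_le_iff₀ (by positivity)]
  refine h5.trans ?_
  rw [div_lt_iff₀ hε] at hLL
  nlinarith

section
variable {X : Type} [MeasurableSpace X] (μ : Measure X) [IsProbabilityMeasure μ]

lemma integrable_bdd {Z : Type*} [MeasurableSpace Z] (m : Measure Z) [IsFiniteMeasure m] (f : Z → ℝ)
    (hf : Measurable f) (C : ℝ) (hC : ∀ z, |f z| ≤ C) : Integrable f m :=
  Integrable.of_bound hf.aestronglyMeasurable C (Eventually.of_forall hC)

lemma abs_le_sq {Z : Type*} [MeasurableSpace Z] (m : Measure Z) [IsProbabilityMeasure m] (f : Z → ℝ)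
    (hf : Measurable f) (C : ℝ) (hC : ∀ z, |f z| ≤ C) (ε : ℝ) (hε : 0 < ε)
    (h : ∫ z, f z ^ 2 ∂m ≤ ε ^ 2) : ∫ z, |f z| ∂m ≤ ε := by
  have h2 : Integrable (fun z => f z ^ 2) m := by
    refine integrable_bdd m _ (hf.pow_const 2) (C ^ 2) fun z => ?_
    rw [abs_pow]
    exact pow_le_pow_left₀ (abs_nonneg _) (hC z) 2
  have h1 : ∫ z, |f z| ∂m ≤ ∫ z, (f z ^ 2 / (2 * ε) + ε / 2) ∂m := by
    refine integral_mono (integrable_bdd m _ hf C hC).abs ((h2.div_const _).add (integrable_const _))
      fun z => ?_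
    show |f z| ≤ f z ^ 2 / (2 * ε) + ε / 2
    rw [div_add_div _ _ (by positivity) (by norm_num), le_div_iff₀ (by positivity)]
    have := sq_abs (f z)
    nlinarith [sq_nonneg (|f z| - ε)]
  rw [integral_add (h2.div_const _) (integrable_const _), integral_div, integral_const, probReal_univ,
    one_smul] at h1
  have h3 : (∫ z, f z ^ 2 ∂m) / (2 * ε) ≤ ε / 2 := by
    rw [div_le_iff₀ (by positivity)]
    nlinarith
  linarith

variable {J : Type} [Fintype J]

/-- product of indicators along the orbit -/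
noncomputable def PT (T : X → X) (B : J → Set X) (t : ℕ) (x : J → X) : ℝ :=
  ∏ j, (B j).indicator (fun _ => (1 : ℝ)) (T^[t] (x j))

lemma ind01 {Z : Type*} (s : Set Z) (z : Z) : 0 ≤ s.indicator (fun _ => (1 : ℝ)) z ∧
    s.indicator (fun _ => (1 : ℝ)) z ≤ 1 := by
  by_cases h : z ∈ s
  · rw [indicator_of_mem h]; norm_num
  · rw [indicator_of_notMem h]; norm_num

lemma PT_mem (T : X → X) (B : J → Set X) (t : ℕ) (x : J → X) : 0 ≤ PT T B t x ∧ PT T B t x ≤ 1 :=
  ⟨Finset.prod_nonneg fun j _ => (ind01 _ _).1, Finset.prod_le_one (fun j _ => (ind01 _ _).1)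
    fun j _ => (ind01 _ _).2⟩

lemma PT_meas {T : X → X} (hT : Measurable T) {B : J → Set X} (hB : ∀ j, MeasurableSet (B j)) (t : ℕ) :
    Measurable (PT T B t) := by
  unfold PT
  refine Finset.measurable_prod _ fun j _ => ?_
  exact (measurable_const.indicator (hB j)).comp ((hT.iterate t).comp (measurable_pi_apply j))

variable {μ}

lemma PT_int {T : X → X} (hT : MeasurePreserving T μ μ) {B : J → Set X} (hB : ∀ j, MeasurableSet (B j)) (t : ℕ) :
    ∫ x, PT T B t x ∂(Measure.pi fun _ : J => μ) = ∏ j, μ.real (B j) := by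
  unfold PT
  rw [integral_fintype_prod_eq_prod (fun j (y : X) => (B j).indicator (fun _ => (1 : ℝ)) (T^[t] y))]
  refine Finset.prod_congr rfl fun j _ => ?_
  have : (fun y => (B j).indicator (fun _ => (1 : ℝ)) (T^[t] y)) =
      (T^[t] ⁻¹' (B j)).indicator (fun _ => (1 : ℝ)) := rfl
  rw [this, integral_indicator_const _ ((hT.measurable.iterate t) (hB j)), smul_eq_mul, mul_one,
    (hT.iterate t).measureReal_preimage (hB j).nullMeasurableSet]

lemma inter_nd {T : X → X} (hT : MeasurePreserving T μ μ) {B : Set X} (hB : MeasurableSet B) (t s : ℕ) :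
    μ.real (T^[t] ⁻¹' B ∩ T^[s] ⁻¹' B) = μ.real (B ∩ T^[nd t s] ⁻¹' B) := by
  rcases le_total t s with h | h
  · obtain ⟨k, rfl⟩ := Nat.exists_eq_add_of_le h
    have e : nd t (t + k) = k := by unfold nd; omega
    rw [e, ← (hT.iterate t).measureReal_preimage
      (s := B ∩ T^[k] ⁻¹' B) (hB.inter ((hT.measurable.iterate k) hB)).nullMeasurableSet]
    congr 1
    ext x
    simp only [mem_inter_iff, mem_preimage, Nat.add_comm t k, Function.iterate_add_apply]
  · obtain ⟨k, rfl⟩ := Nat.exists_eq_add_of_le h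
    have e : nd (s + k) s = k := by unfold nd; omega
    rw [e, ← (hT.iterate s).measureReal_preimage
      (s := B ∩ T^[k] ⁻¹' B) (hB.inter ((hT.measurable.iterate k) hB)).nullMeasurableSet]
    congr 1
    ext x
    simp only [mem_inter_iff, mem_preimage, Nat.add_comm s k, Function.iterate_add_apply]
    tauto

lemma PT_mul_int {T : X → X} (hT : MeasurePreserving T μ μ) {B : J → Set X} (hB : ∀ j, MeasurableSet (B j))
    (t s : ℕ) : ∫ x, PT T B t x * PT T B s x ∂(Measure.pi fun _ : J => μ) =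
      ∏ j, μ.real (B j ∩ T^[nd t s] ⁻¹' (B j)) := by
  unfold PT
  simp_rw [← Finset.prod_mul_distrib]
  rw [integral_fintype_prod_eq_prod (fun j (y : X) => (B j).indicator (fun _ => (1 : ℝ)) (T^[t] y) *
    (B j).indicator (fun _ => (1 : ℝ)) (T^[s] y))]
  refine Finset.prod_congr rfl fun j _ => ?_
  have : (fun y => (B j).indicator (fun _ => (1 : ℝ)) (T^[t] y) * (B j).indicator (fun _ => (1 : ℝ)) (T^[s] y)) =
      (T^[t] ⁻¹' (B j) ∩ T^[s] ⁻¹' (B j)).indicator (fun _ => (1 : ℝ)) := by
    funext y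
    by_cases h1 : T^[t] y ∈ B j <;> by_cases h2 : T^[s] y ∈ B j <;> simp [indicator, h1, h2]
  rw [this, integral_indicator_const _ (((hT.measurable.iterate t) (hB j)).inter
    ((hT.measurable.iterate s) (hB j))), smul_eq_mul, mul_one, inter_nd hT (hB j)]

/-- the mean ergodic estimate -/
theorem avg_pi {T : X → X} (hT : MeasurePreserving T μ μ)
    (hmix : ∀ A B : Set X, MeasurableSet A → MeasurableSet B →
      Tendsto (fun n : ℕ => μ.real (A ∩ T^[n] ⁻¹' B)) atTop (𝓝 (μ.real A * μ.real B)))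
    {B : J → Set X} (hB : ∀ j, MeasurableSet (B j)) (ε : ℝ) (hε : 0 < ε) :
    ∃ L0 : ℕ, 0 < L0 ∧ ∀ L ≥ L0, ∫ x, |(∑ t ∈ Finset.range L, PT T B t x) / L - ∏ j, μ.real (B j)|
      ∂(Measure.pi fun _ : J => μ) ≤ ε := by
  set c : ℝ := ∏ j, μ.real (B j) with hc
  have hc0 : 0 ≤ c := Finset.prod_nonneg fun j _ => measureReal_nonneg
  have hc1 : c ≤ 1 := Finset.prod_le_one (fun j _ => measureReal_nonneg) fun j _ => measureReal_le_one
  set ψ : ℕ → ℝ := fun n => ∏ j, μ.real (B j ∩ T^[n] ⁻¹' (B j)) - c ^ 2 with hψ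
  have hlim : Tendsto ψ atTop (𝓝 0) := by
    have h1 : Tendsto (fun n : ℕ => ∏ j, μ.real (B j ∩ T^[n] ⁻¹' (B j))) atTop
        (𝓝 (∏ j, (μ.real (B j) * μ.real (B j)))) :=
      tendsto_finsetProd _ fun j _ => hmix (B j) (B j) (hB j) (hB j)
    have h2 : ∏ j, (μ.real (B j) * μ.real (B j)) = c ^ 2 := by
      rw [Finset.prod_mul_distrib, hc, sq]
    rw [h2] at h1
    have h3 := h1.sub_const (c ^ 2)
    rwa [sub_self] at h3
  have hbd : ∀ n, |ψ n| ≤ 1 := by
    intro n
    have h1 : 0 ≤ ∏ j, μ.real (B j ∩ T^[n] ⁻¹' (B j)) := Finset.prod_nonneg fun j _ => measureReal_nonneg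
    have h2 : ∏ j, μ.real (B j ∩ T^[n] ⁻¹' (B j)) ≤ 1 :=
      Finset.prod_le_one (fun j _ => measureReal_nonneg) fun j _ => measureReal_le_one
    rw [abs_le]
    constructor <;> simp only [hψ] <;> nlinarith
  obtain ⟨L0, hL0, hL⟩ := cesaro ψ hlim hbd (ε ^ 2) (by positivity)
  refine ⟨L0, hL0, fun L hLL => ?_⟩
  have hLpos : (0 : ℝ) < L := by
    have : 0 < L := by omega
    exact_mod_cast this
  have hm : ∀ t, Measurable (PT T B t) := fun t => PT_meas hT.measurable hB t
  set f : (J → X) → ℝ := fun x => (∑ t ∈ Finset.range L, PT T B t x) / L - c with hf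
  have hfm : Measurable f := by
    have : Measurable fun x => ∑ t ∈ Finset.range L, PT T B t x := Finset.measurable_sum _ fun t _ => hm t
    exact (this.div_const _).sub_const c
  have hfe : ∀ x, f x = (∑ t ∈ Finset.range L, (PT T B t x - c)) / L := by
    intro x
    simp only [hf]
    rw [Finset.sum_sub_distrib, Finset.sum_const, Finset.card_range, nsmul_eq_mul]
    field_simp
  have hfb : ∀ x, |f x| ≤ 1 := by
    intro x
    rw [hfe, abs_div, Nat.abs_cast, div_le_one hLpos]
    refine (Finset.abs_sum_le_sum_abs _ _).trans ?_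
    calc ∑ t ∈ Finset.range L, |PT T B t x - c| ≤ ∑ t ∈ Finset.range L, (1 : ℝ) := by
          refine Finset.sum_le_sum fun t _ => ?_
          have := PT_mem T B t x
          rw [abs_le]
          constructor <;> linarith
      _ = L := by simp
  refine abs_le_sq (Measure.pi fun _ : J => μ) f hfm 1 hfb ε hε ?_
  have hint : ∀ t s, Integrable (fun x => (PT T B t x - c) * (PT T B s x - c)) (Measure.pi fun _ : J => μ) := by
    intro t s
    refine integrable_bdd _ _ (((hm t).sub_const c).mul ((hm s).sub_const c)) 1 fun x => ?_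
    have h1 := PT_mem T B t x
    have h2 := PT_mem T B s x
    rw [abs_mul]
    have h3 : |PT T B t x - c| ≤ 1 := by rw [abs_le]; constructor <;> linarith
    have h4 : |PT T B s x - c| ≤ 1 := by rw [abs_le]; constructor <;> linarith
    calc _ ≤ (1 : ℝ) * 1 := mul_le_mul h3 h4 (abs_nonneg _) (by norm_num)
      _ = 1 := one_mul _
  have hPi : ∀ t, Integrable (PT T B t) (Measure.pi fun _ : J => μ) := fun t =>
    integrable_bdd _ _ (hm t) 1 fun x => by
      have h1 := PT_mem T B t x
      rw [abs_le]; constructor <;> linarith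
  have hPPi : ∀ t s, Integrable (fun x => PT T B t x * PT T B s x) (Measure.pi fun _ : J => μ) := fun t s =>
    integrable_bdd _ _ ((hm t).mul (hm s)) 1 fun x => by
      have h1 := PT_mem T B t x
      have h2 := PT_mem T B s x
      rw [abs_le]; constructor <;> nlinarith
  have hval : ∀ t s, ∫ x, (PT T B t x - c) * (PT T B s x - c) ∂(Measure.pi fun _ : J => μ) = ψ (nd t s) := by
    intro t s
    have e1 : ∀ x, (PT T B t x - c) * (PT T B s x - c) =
        PT T B t x * PT T B s x - (c * PT T B t x + c * PT T B s x - c ^ 2) := fun x => by ring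
    have i1 : Integrable (fun x => c * PT T B t x) (Measure.pi fun _ : J => μ) := (hPi t).const_mul c
    have i2 : Integrable (fun x => c * PT T B s x) (Measure.pi fun _ : J => μ) := (hPi s).const_mul c
    have i3 : Integrable (fun x => c * PT T B t x + c * PT T B s x) (Measure.pi fun _ : J => μ) := i1.add i2
    have i4 : Integrable (fun x => c * PT T B t x + c * PT T B s x - c ^ 2) (Measure.pi fun _ : J => μ) :=
      i3.sub (integrable_const _)
    simp_rw [e1]
    rw [integral_sub (hPPi t s) i4, integral_sub i3 (integrable_const _),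
      integral_add i1 i2, integral_const_mul, integral_const_mul,
      PT_mul_int hT hB, PT_int hT hB, PT_int hT hB, integral_const, probReal_univ, one_smul]
    simp only [hψ]
    ring
  have h1 : ∫ x, f x ^ 2 ∂(Measure.pi fun _ : J => μ) =
      (∑ t ∈ Finset.range L, ∑ s ∈ Finset.range L, ψ (nd t s)) / (L : ℝ) ^ 2 := by
    have e1 : ∀ x, f x ^ 2 = (∑ t ∈ Finset.range L, ∑ s ∈ Finset.range L,
        (PT T B t x - c) * (PT T B s x - c)) / (L : ℝ) ^ 2 := by
      intro x
      rw [hfe, div_pow, sq, Finset.sum_mul_sum]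
    simp_rw [e1]
    rw [integral_div, integral_finsetSum _ fun t _ => integrable_finsetSum _ fun s _ => hint t s]
    congr 1
    refine Finset.sum_congr rfl fun t _ => ?_
    rw [integral_finsetSum _ fun s _ => hint t s]
    exact Finset.sum_congr rfl fun s _ => hval t s
  rw [h1]
  refine le_trans ?_ (hL L hLL)
  gcongr with t _ s _
  exact le_abs_self _

end

end Pool.Agent.R202.MM
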