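import Pool.Agent.W744.NG.Stubs
import Pool.Agent.W368.NG.Approx

set_option autoImplicit false
set_option linter.unusedSectionVars false

/-!
Approximation of measurable subsets of a product by unions of cells.
-/

namespace Pool.Agent.R202.MM

open MeasureTheory Set Filter Topology
open scoped ENNReal symmDiff
open Pool.Agent.W744.NG

variable {X Y : Type} [MeasurableSpace X] [MeasurableSpace Y] {μ : Measure X} {ν : Measure Y}
  [IsProbabilityMeasure μ] [IsProbabilityMeasure ν] (DX : YS μ) (DY : YS ν)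

/-- labels -/
abbrev Wd (r : ℕ) : Type := Fin r → ZMod 2

/-- the cell of a point -/
def cell (r : ℕ) (z : X × Y) : Wd r × Wd r := (DX.v r z.1, DY.v r z.2)

lemma cell_meas (r : ℕ) (i : Wd r × Wd r) : MeasurableSet (cell DX DY r ⁻¹' {i}) := by
  have : cell DX DY r ⁻¹' {i} = {x | DX.v r x = i.1} ×ˢ {y | DY.v r y = i.2} := by
    ext ⟨x, y⟩
    simp [cell, Prod.ext_iff]
  rw [this]
  exact (DX.meas _ _).prod (DY.meas _ _)

lemma cell_set (r : ℕ) (S : Set (Wd r × Wd r)) : MeasurableSet (cell DX DY r ⁻¹' S) := by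
  have : cell DX DY r ⁻¹' S = ⋃ i ∈ S, cell DX DY r ⁻¹' {i} := by
    ext z
    simp
  rw [this]
  exact MeasurableSet.biUnion (Set.to_countable _) fun i _ => cell_meas DX DY r i

lemma cell_ref (r r' : ℕ) (hr : r ≤ r') (z z' : X × Y) (h : cell DX DY r' z = cell DX DY r' z') :
    cell DX DY r z = cell DX DY r z' := by
  simp only [cell, Prod.mk.injEq] at h ⊢
  exact ⟨DX.ref _ _ hr _ _ h.1, DY.ref _ _ hr _ _ h.2⟩

lemma lift_set (r r' : ℕ) (hr : r ≤ r') (S : Set (Wd r × Wd r)) :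
    ∃ S' : Set (Wd r' × Wd r'), cell DX DY r' ⁻¹' S' = cell DX DY r ⁻¹' S := by
  refine ⟨cell DX DY r' '' (cell DX DY r ⁻¹' S), ?_⟩
  refine Subset.antisymm ?_ (subset_preimage_image _ _)
  rintro z ⟨z', h1, h2⟩
  show cell DX DY r z ∈ S
  rw [← cell_ref DX DY r r' hr _ _ h2]
  exact h1

/-- sets that are approximated by unions of cells -/
def Good (E : Set (X × Y)) : Prop := ∀ ε : ℝ, 0 < ε → ∃ (r : ℕ) (S : Set (Wd r × Wd r)),
  (μ.prod ν).real (E ∆ (cell DX DY r ⁻¹' S)) < ε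

lemma good_union (E E' : Set (X × Y)) (h : Good DX DY E) (h' : Good DX DY E') :
    Good DX DY (E ∪ E') := by
  intro ε hε
  obtain ⟨j, S, hS⟩ := h (ε / 2) (by positivity)
  obtain ⟨j', S', hS'⟩ := h' (ε / 2) (by positivity)
  obtain ⟨S1, h1⟩ := lift_set DX DY j (max j j') (le_max_left _ _) S
  obtain ⟨S2, h2⟩ := lift_set DX DY j' (max j j') (le_max_right _ _) S'
  refine ⟨max j j', S1 ∪ S2, ?_⟩
  rw [preimage_union, h1, h2]
  have h3 : (E ∪ E') ∆ (cell DX DY j ⁻¹' S ∪ cell DX DY j' ⁻¹' S') ⊆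
      (E ∆ (cell DX DY j ⁻¹' S)) ∪ (E' ∆ (cell DX DY j' ⁻¹' S')) := by
    intro z hz
    simp only [mem_symmDiff, mem_union] at hz ⊢
    tauto
  calc _ ≤ (μ.prod ν).real ((E ∆ (cell DX DY j ⁻¹' S)) ∪ (E' ∆ (cell DX DY j' ⁻¹' S'))) :=
        measureReal_mono h3
    _ ≤ _ := measureReal_union_le _ _
    _ < ε := by linarith

lemma good_all (E : Set (X × Y)) (hE : MeasurableSet E) : Good DX DY E := by
  induction E, hE using MeasurableSpace.induction_on_inter generateFrom_prod.symm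
    isPiSystem_prod with
  | empty =>
    intro ε hε
    exact ⟨0, ∅, by simpa using hε⟩
  | basic E hE =>
    obtain ⟨A, hA, B, hB, rfl⟩ := hE
    intro ε hε
    obtain ⟨j, s, hs⟩ := DX.gen A hA (ε / 2) (by positivity)
    obtain ⟨r, t, ht⟩ := DY.gen B hB (ε / 2) (by positivity)
    have hpre : ∃ S : Set (Wd (max j r) × Wd (max j r)),
        cell DX DY (max j r) ⁻¹' S = {x | DX.v j x ∈ s} ×ˢ {y | DY.v r y ∈ t} := by
      refine ⟨cell DX DY (max j r) '' ({x | DX.v j x ∈ s} ×ˢ {y | DY.v r y ∈ t}), ?_⟩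
      refine Subset.antisymm ?_ (subset_preimage_image _ _)
      rintro ⟨x, y⟩ ⟨⟨x', y'⟩, ⟨h1, h2⟩, h3⟩
      simp only [cell, Prod.mk.injEq] at h3
      refine ⟨?_, ?_⟩
      · show DX.v j x ∈ s
        rw [← DX.ref j (max j r) (le_max_left _ _) _ _ h3.1]
        exact h1
      · show DY.v r y ∈ t
        rw [← DY.ref r (max j r) (le_max_right _ _) _ _ h3.2]
        exact h2
    obtain ⟨S, hS⟩ := hpre
    refine ⟨max j r, S, ?_⟩
    rw [hS]
    have h3 : (A ×ˢ B) ∆ ({x | DX.v j x ∈ s} ×ˢ {y | DY.v r y ∈ t}) ⊆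
        ((A ∆ {x | DX.v j x ∈ s}) ×ˢ univ) ∪ (univ ×ˢ (B ∆ {y | DY.v r y ∈ t})) := by
      rintro ⟨x, y⟩ hz
      simp only [mem_symmDiff, mem_union, mem_prod, mem_univ, and_true, true_and,
        mem_ofPred_eq] at hz ⊢
      tauto
    calc _ ≤ (μ.prod ν).real (((A ∆ {x | DX.v j x ∈ s}) ×ˢ univ) ∪
          (univ ×ˢ (B ∆ {y | DY.v r y ∈ t}))) := measureReal_mono h3
      _ ≤ _ := measureReal_union_le _ _
      _ < ε := by
        rw [measureReal_prod_prod, measureReal_prod_prod]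
        simp only [probReal_univ, mul_one, one_mul]
        linarith
  | compl E hE ih =>
    intro ε hε
    obtain ⟨r, S, hS⟩ := ih ε hε
    refine ⟨r, Sᶜ, ?_⟩
    rw [preimage_compl, compl_symmDiff_compl]
    exact hS
  | iUnion f hd hm ih =>
    intro ε hε
    have hfin : ∀ n : ℕ, Good DX DY (⋃ i ∈ Finset.range n, f i) := by
      intro n
      induction n with
      | zero =>
        intro ε hε
        exact ⟨0, ∅, by simpa using hε⟩
      | succ n ihn =>
        rw [Finset.range_add_one, Finset.set_biUnion_insert, union_comm]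
        exact good_union DX DY _ _ ihn (ih n)
    have hlim : Tendsto (fun n : ℕ => (μ.prod ν) ((⋃ i, f i) \ (⋃ i ∈ Finset.range n, f i))) atTop (𝓝 0) := by
      have h1 : (⋂ n : ℕ, ((⋃ i, f i) \ (⋃ i ∈ Finset.range n, f i))) = ∅ := by
        ext z
        simp only [mem_iInter, mem_empty_iff_false, iff_false, not_forall]
        by_cases hz : z ∈ ⋃ i, f i
        · obtain ⟨i, hi⟩ := mem_iUnion.1 hz
          refine ⟨i + 1, fun h => h.2 ?_⟩
          simp only [mem_iUnion, Finset.mem_range]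
          exact ⟨i, by omega, hi⟩
        · exact ⟨0, fun h => hz h.1⟩
      rw [← measure_empty (μ := μ.prod ν), ← h1]
      apply tendsto_measure_iInter_atTop
      · intro n
        exact ((MeasurableSet.iUnion hm).diff (Finset.measurableSet_biUnion _ fun i _ => hm i)).nullMeasurableSet
      · intro a b hab z hz
        refine ⟨hz.1, fun h => hz.2 ?_⟩
        simp only [mem_iUnion, Finset.mem_range] at h ⊢
        obtain ⟨i, hi, hzi⟩ := h
        exact ⟨i, lt_of_lt_of_le hi hab, hzi⟩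
      · exact ⟨0, measure_ne_top _ _⟩
    have hev : ∀ᶠ n : ℕ in atTop, (μ.prod ν) ((⋃ i, f i) \ (⋃ i ∈ Finset.range n, f i)) < ENNReal.ofReal (ε / 2) :=
      hlim.eventually_lt_const (by positivity)
    obtain ⟨n, hn⟩ := hev.exists
    obtain ⟨r, S, hS⟩ := hfin n (ε / 2) (by positivity)
    refine ⟨r, S, ?_⟩
    have h3 : (⋃ i, f i) ∆ (cell DX DY r ⁻¹' S) ⊆ ((⋃ i, f i) \ (⋃ i ∈ Finset.range n, f i)) ∪
        ((⋃ i ∈ Finset.range n, f i) ∆ (cell DX DY r ⁻¹' S)) := by
      intro z hz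
      have hsub : (⋃ i ∈ Finset.range n, f i) ⊆ ⋃ i, f i := by
        intro w hw
        simp only [mem_iUnion] at hw ⊢
        obtain ⟨i, -, hw⟩ := hw
        exact ⟨i, hw⟩
      simp only [mem_symmDiff, mem_union, Set.mem_sdiff] at hz ⊢
      by_cases h : z ∈ ⋃ i ∈ Finset.range n, f i
      · have := hsub h
        tauto
      · tauto
    have h4 : (μ.prod ν).real ((⋃ i, f i) \ (⋃ i ∈ Finset.range n, f i)) < ε / 2 := by
      rw [measureReal_def]
      exact (ENNReal.lt_ofReal_iff_toReal_lt (measure_ne_top _ _)).1 hn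
    calc _ ≤ _ := measureReal_mono h3
      _ ≤ _ := measureReal_union_le _ _
      _ < ε := by linarith

/-- finitely many sets at once -/
lemma good_fin {J : Type} [Fintype J] (E : J → Set (X × Y)) (hE : ∀ j, MeasurableSet (E j)) (ε : ℝ)
    (hε : 0 < ε) : ∃ (r : ℕ) (S : J → Set (Wd r × Wd r)), ∀ j,
      (μ.prod ν).real (E j ∆ (cell DX DY r ⁻¹' S j)) < ε := by
  classical
  choose r S hS using fun j => good_all DX DY (E j) (hE j) ε hε
  have hle : ∀ j, r j ≤ Finset.univ.sup r := fun j => Finset.le_sup (Finset.mem_univ j)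
  choose S' hS' using fun j => lift_set DX DY (r j) (Finset.univ.sup r) (hle j) (S j)
  exact ⟨Finset.univ.sup r, S', fun j => by rw [hS']; exact hS j⟩

end Pool.Agent.R202.MM
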