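import Pool.Agent.R202.MM.Transfer

set_option autoImplicit false
set_option linter.unusedSectionVars false

/-!
The main estimate: correlations of a skew product over long times.
-/

namespace Pool.Agent.R202.MM

open MeasureTheory Set Filter Topology
open scoped ENNReal symmDiff

/-- product of indicators -/
noncomputable def PI {X : Type} {J : Type} [Fintype J] (T : X → X) (B : J → Set X) (t : ℕ) (n : J → ℕ) (x : X) : ℝ :=
  ∏ j, (B j).indicator (fun _ => (1 : ℝ)) (T^[t] (T^[n j] x))

section
variable {X Z G J : Type} [MeasurableSpace X] [MeasurableSpace Z] [Fintype J] [Fintype G]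
  {μ : Measure X} {lam : Measure Z} [IsProbabilityMeasure μ] [IsProbabilityMeasure lam]

lemma PI_mem (T : X → X) (B : J → Set X) (t : ℕ) (n : J → ℕ) (x : X) :
    0 ≤ PI T B t n x ∧ PI T B t n x ≤ 1 :=
  ⟨Finset.prod_nonneg fun _ _ => (ind01 _ _).1, Finset.prod_le_one (fun _ _ => (ind01 _ _).1)
    fun _ _ => (ind01 _ _).2⟩

lemma PI_meas {T : X → X} (hT : Measurable T) {B : J → Set X} (hB : ∀ j, MeasurableSet (B j)) (t : ℕ)
    (n : J → ℕ) : Measurable (PI T B t n) := by
  unfold PI
  refine Finset.measurable_prod _ fun j _ => ?_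
  exact (measurable_const.indicator (hB j)).comp ((hT.iterate t).comp (hT.iterate (n j)))

theorem est [DecidableEq J] {T : X → X} (hTm : Measurable T) {R : Z → Z}
    (hR : MeasurePreserving R lam lam)
    {p : Z → X} (hp : MeasurePreserving p lam μ) (hpR : ∀ z, p (R z) = T (p z)) (W : Z → G)
    (hW : ∀ w, MeasurableSet {z | W z = w}) (C : J → Set Z) (hC : ∀ j, MeasurableSet (C j))
    (B : J → G → Set X) (hB : ∀ j w, MeasurableSet (B j w)) (L : ℕ) (hL : 0 < L) (η κ : ℝ)
    (h1 : ∀ t < L, ∀ j, lam.real ((R^[t] ⁻¹' C j) ∆ {z | T^[t] (p z) ∈ B j (W z)}) ≤ η)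
    (h2 : ∀ j w, |μ.real (B j w) - lam.real (C j)| ≤ η)
    (n : J → ℕ)
    (h3 : ∀ w : J → G, ∫ x, |(∑ t ∈ Finset.range L, PI T (fun j => B j (w j)) t n x) / L -
      ∏ j, μ.real (B j (w j))| ∂μ ≤ κ) :
    |lam.real (⋂ j, R^[n j] ⁻¹' C j) - ∏ j, lam.real (C j)| ≤
      2 * (Fintype.card J * η) + Fintype.card (J → G) * κ := by
  classical
  have hLpos : (0 : ℝ) < L := by exact_mod_cast hL
  have hpRi : ∀ m z, p (R^[m] z) = T^[m] (p z) := by
    intro m
    induction m with
    | zero => intro z; rfl
    | succ m ih => intro z; rw [Function.iterate_succ_apply, ih, hpR, Function.iterate_succ_apply]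
  set D : J → ℕ → Set Z := fun j t => {z | T^[t] (p z) ∈ B j (W z)} with hD
  have hDm : ∀ j t, MeasurableSet (D j t) := by
    intro j t
    have e : D j t = ⋃ w, ({z | W z = w} ∩ {z | T^[t] (p z) ∈ B j w}) := by
      ext z
      simp [hD]
    rw [e]
    refine MeasurableSet.iUnion fun w => (hW w).inter ?_
    exact ((hTm.iterate t).comp hp.measurable) (hB j w)
  have hRm : ∀ m, Measurable (R^[m]) := fun m => hR.measurable.iterate m
  set a : ℝ := lam.real (⋂ j, R^[n j] ⁻¹' C j) with ha
  set b : ℕ → ℝ := fun t => lam.real (⋂ j, R^[n j] ⁻¹' D j t) with hb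
  -- comparison with `b t`
  have hab : ∀ t < L, |a - b t| ≤ Fintype.card J * η := by
    intro t ht
    have e1 : a = lam.real (⋂ j, R^[n j] ⁻¹' (R^[t] ⁻¹' C j)) := by
      rw [ha, ← (hR.iterate t).measureReal_preimage
        (MeasurableSet.iInter fun j => (hRm (n j)) (hC j)).nullMeasurableSet]
      congr 1
      rw [preimage_iInter]
      refine iInter_congr fun j => ?_
      ext z
      simp only [mem_preimage]
      rw [← Function.iterate_add_apply, ← Function.iterate_add_apply, Nat.add_comm]
    rw [e1]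
    refine (inter_sub_le lam _ _ (fun j => (hRm (n j)) ((hRm t) (hC j))) fun j => (hRm (n j)) (hDm j t)).trans ?_
    calc ∑ j, lam.real ((R^[n j] ⁻¹' (R^[t] ⁻¹' C j)) ∆ (R^[n j] ⁻¹' D j t)) ≤ ∑ _j : J, η := by
          refine Finset.sum_le_sum fun j _ => ?_
          have e2 : (R^[n j] ⁻¹' (R^[t] ⁻¹' C j)) ∆ (R^[n j] ⁻¹' D j t) = R^[n j] ⁻¹' ((R^[t] ⁻¹' C j) ∆ D j t) := by
            ext z
            simp only [mem_symmDiff, mem_preimage]
          rw [e2, (hR.iterate (n j)).measureReal_preimage
            (((hRm t) (hC j)).symmDiff (hDm j t)).nullMeasurableSet]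
          exact h1 t ht j
      _ = _ := by rw [Finset.sum_const, Finset.card_univ, nsmul_eq_mul]
  have havg : |a - (∑ t ∈ Finset.range L, b t) / L| ≤ Fintype.card J * η := by
    have e1 : a - (∑ t ∈ Finset.range L, b t) / L = (∑ t ∈ Finset.range L, (a - b t)) / L := by
      rw [Finset.sum_sub_distrib, Finset.sum_const, Finset.card_range, nsmul_eq_mul]
      field_simp
    rw [e1, abs_div, Nat.abs_cast, div_le_iff₀ hLpos]
    refine (Finset.abs_sum_le_sum_abs _ _).trans ?_
    calc ∑ t ∈ Finset.range L, |a - b t| ≤ ∑ t ∈ Finset.range L, Fintype.card J * η :=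
          Finset.sum_le_sum fun t ht => hab t (Finset.mem_range.1 ht)
      _ = _ := by rw [Finset.sum_const, Finset.card_range, nsmul_eq_mul]; ring
  -- the average as an integral
  set wz : Z → J → G := fun z j => W (R^[n j] z) with hwz
  set f : (J → G) → X → ℝ := fun w x =>
    (∑ t ∈ Finset.range L, PI T (fun j => B j (w j)) t n x) / L with hf
  set c : (J → G) → ℝ := fun w => ∏ j, μ.real (B j (w j)) with hc
  have hind : ∀ t z, PI T (fun j => B j (wz z j)) t n (p z) =
      (⋂ j, R^[n j] ⁻¹' D j t).indicator (fun _ => (1 : ℝ)) z := by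
    intro t z
    unfold PI
    by_cases hz : z ∈ ⋂ j, R^[n j] ⁻¹' D j t
    · rw [indicator_of_mem hz]
      refine Finset.prod_eq_one fun j _ => ?_
      rw [mem_iInter] at hz
      have h5 : T^[t] (p (R^[n j] z)) ∈ B j (W (R^[n j] z)) := hz j
      rw [hpRi] at h5
      rw [indicator_of_mem h5]
    · rw [indicator_of_notMem hz]
      rw [mem_iInter, not_forall] at hz
      obtain ⟨j, hj⟩ := hz
      refine Finset.prod_eq_zero (Finset.mem_univ j) ?_
      have h5 : ¬ T^[t] (p (R^[n j] z)) ∈ B j (W (R^[n j] z)) := hj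
      rw [hpRi] at h5
      rw [indicator_of_notMem h5]
  have hIm : ∀ t, MeasurableSet (⋂ j, R^[n j] ⁻¹' D j t) := fun t =>
    MeasurableSet.iInter fun j => (hRm (n j)) (hDm j t)
  have hInt1 : ∀ t, Integrable ((⋂ j, R^[n j] ⁻¹' D j t).indicator (fun _ => (1 : ℝ))) lam := fun t =>
    (integrable_const (1 : ℝ)).indicator (hIm t)
  have hfz : ∀ z, f (wz z) (p z) = (∑ t ∈ Finset.range L,
      (⋂ j, R^[n j] ⁻¹' D j t).indicator (fun _ => (1 : ℝ)) z) / L := by
    intro z
    simp only [hf]
    congr 1
    exact Finset.sum_congr rfl fun t _ => hind t z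
  have hInt : Integrable (fun z => f (wz z) (p z)) lam := by
    simp_rw [hfz]
    exact (integrable_finsetSum _ fun t _ => hInt1 t).div_const _
  have hbf : (∑ t ∈ Finset.range L, b t) / L = ∫ z, f (wz z) (p z) ∂lam := by
    simp_rw [hfz]
    rw [integral_div, integral_finsetSum _ fun t _ => hInt1 t]
    congr 1
    refine Finset.sum_congr rfl fun t _ => ?_
    rw [integral_indicator_const _ (hIm t), smul_eq_mul, mul_one]
  have hcb : ∀ w, |c w - ∏ j, lam.real (C j)| ≤ Fintype.card J * η := by
    intro w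
    refine (prod_sub_le Finset.univ _ _ (fun j => ⟨measureReal_nonneg, measureReal_le_one⟩)
      fun j => ⟨measureReal_nonneg, measureReal_le_one⟩).trans ?_
    calc ∑ j, |μ.real (B j (w j)) - lam.real (C j)| ≤ ∑ _j : J, η := Finset.sum_le_sum fun j _ => h2 j (w j)
      _ = _ := by rw [Finset.sum_const, Finset.card_univ, nsmul_eq_mul]
  have hfm : ∀ w, Measurable (f w) := by
    intro w
    exact (Finset.measurable_sum _ fun t _ => PI_meas hTm (fun j => hB j (w j)) t n).div_const _
  have hfb : ∀ w x, |f w x - c w| ≤ 1 := by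
    intro w x
    have h0 : 0 ≤ f w x := div_nonneg (Finset.sum_nonneg fun t _ => (PI_mem _ _ _ _ _).1) hLpos.le
    have h1' : f w x ≤ 1 := by
      simp only [hf]
      rw [div_le_one hLpos]
      calc ∑ t ∈ Finset.range L, PI T (fun j => B j (w j)) t n x ≤ ∑ t ∈ Finset.range L, (1 : ℝ) :=
            Finset.sum_le_sum fun t _ => (PI_mem _ _ _ _ _).2
        _ = L := by simp
    have hc0 : 0 ≤ c w := Finset.prod_nonneg fun _ _ => measureReal_nonneg
    have hc1 : c w ≤ 1 := Finset.prod_le_one (fun _ _ => measureReal_nonneg) fun _ _ => measureReal_le_one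
    rw [abs_le]
    constructor <;> linarith
  have hIf : ∀ w, Integrable (fun x => |f w x - c w|) μ := fun w =>
    (integrable_bdd μ _ ((hfm w).sub_const _) 1 (hfb w)).abs
  have hIfz : ∀ w, Integrable (fun z => |f w (p z) - c w|) lam := fun w =>
    (integrable_bdd lam _ (((hfm w).comp hp.measurable).sub_const _) 1 (fun z => hfb w (p z))).abs
  have hmain : |∫ z, f (wz z) (p z) ∂lam - ∏ j, lam.real (C j)| ≤
      Fintype.card J * η + Fintype.card (J → G) * κ := by
    have e1 : ∫ z, f (wz z) (p z) ∂lam - ∏ j, lam.real (C j) =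
        ∫ z, (f (wz z) (p z) - ∏ j, lam.real (C j)) ∂lam := by
      rw [integral_sub hInt (integrable_const _), integral_const, probReal_univ, one_smul]
    rw [e1]
    refine (abs_integral_le_integral_abs).trans ?_
    have e2 : ∀ z, |f (wz z) (p z) - ∏ j, lam.real (C j)| ≤
        Fintype.card J * η + ∑ w, |f w (p z) - c w| := by
      intro z
      have h6 : |f (wz z) (p z) - c (wz z)| ≤ ∑ w, |f w (p z) - c w| :=
        Finset.single_le_sum (f := fun w => |f w (p z) - c w|) (fun w _ => abs_nonneg _) (Finset.mem_univ _)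
      have h7 := abs_sub_le (f (wz z) (p z)) (c (wz z)) (∏ j, lam.real (C j))
      linarith [hcb (wz z)]
    have hIs : Integrable (fun z => ∑ w, |f w (p z) - c w|) lam :=
      integrable_finsetSum _ fun w _ => hIfz w
    have e3 := integral_mono (hInt.sub (integrable_const (∏ j, lam.real (C j)))).abs
      ((integrable_const (Fintype.card J * η)).add hIs) e2
    refine e3.trans ?_
    have e4 : ∫ z, (Fintype.card J * η + ∑ w, |f w (p z) - c w|) ∂lam =
        Fintype.card J * η + ∑ w, ∫ x, |f w x - c w| ∂μ := by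
      rw [integral_add (integrable_const _) hIs, integral_const, probReal_univ, one_smul,
        integral_finsetSum _ fun w _ => hIfz w]
      congr 1
      refine Finset.sum_congr rfl fun w _ => ?_
      have := hp.map_eq
      rw [← this, integral_map hp.measurable.aemeasurable]
      have hm : Measurable (fun x => |f w x - c w|) := ((hfm w).sub_const _).abs
      exact hm.aestronglyMeasurable
    refine le_of_eq_of_le (b := ∫ z, (Fintype.card J * η + ∑ w, |f w (p z) - c w|) ∂lam) rfl ?_
    rw [e4]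
    refine add_le_add le_rfl ?_
    calc ∑ w, ∫ x, |f w x - c w| ∂μ ≤ ∑ _w : J → G, κ := Finset.sum_le_sum fun w _ => h3 w
      _ = _ := by rw [Finset.sum_const, Finset.card_univ, nsmul_eq_mul]
  have hfin := abs_sub_le a ((∑ t ∈ Finset.range L, b t) / L) (∏ j, lam.real (C j))
  rw [← hbf] at hmain
  linarith

end

end Pool.Agent.R202.MM
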