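import Pool.Agent.W744.NG.Stubs

set_option autoImplicit false
set_option linter.unusedSectionVars false

/-!
Times and labels for a mixing automorphism.
-/

namespace Pool.Agent.R202.MM

open MeasureTheory Set Filter Topology
open scoped ENNReal symmDiff
open Pool.Agent.W744.NG

variable {X : Type} [MeasurableSpace X] {μ : Measure X} [IsProbabilityMeasure μ]

/-- mixing, for two sets -/
def Mix2 (μ : Measure X) (T : X → X) : Prop := ∀ A B : Set X, MeasurableSet A → MeasurableSet B →
  Tendsto (fun n : ℕ => μ.real (A ∩ T^[n] ⁻¹' B)) atTop (𝓝 (μ.real A * μ.real B))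

section
variable (T : X ≃ᵐ X)

lemma it_symm (n m : ℕ) (h : m ≤ n) (x : X) : (T : X → X)^[n] ((T.symm : X → X)^[m] x) = (T : X → X)^[n - m] x := by
  obtain ⟨k, rfl⟩ := Nat.exists_eq_add_of_le h
  have hl : Function.LeftInverse (T : X → X) (T.symm : X → X) := fun x => T.apply_symm_apply x
  rw [Nat.add_comm m k, Function.iterate_add_apply, hl.iterate m x]
  congr 1
  simp

lemma symm_it (m : ℕ) (x : X) : (T.symm : X → X)^[m] ((T : X → X)^[m] x) = x := by
  have hl : Function.LeftInverse (T.symm : X → X) (T : X → X) := fun x => T.symm_apply_apply x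
  exact hl.iterate m x

end

/-- time since the last visit to a small set -/
theorem tau_exists (D : YS μ) (T : AU μ) (hT : Mix2 μ (T.1 : X → X)) (δ : ℝ) (hδ : 0 < δ) :
    ∃ τ : X → ℕ, Measurable τ ∧ ∃ E : Set X, MeasurableSet E ∧ μ.real E < δ ∧
      ∀ x, x ∉ E → τ (T.1 x) = τ x + 1 := by
  classical
  obtain ⟨r, hr⟩ := exists_nat_gt (1 / δ)
  have hr2 : (1 : ℝ) / 2 ^ r < δ := by
    have h1 : (r : ℝ) < 2 ^ r := by exact_mod_cast Nat.lt_two_pow_self
    rw [div_lt_iff₀ (by positivity)]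
    rw [div_lt_iff₀ hδ] at hr
    nlinarith
  set B : Set X := {x | D.v r x = 0} with hB
  have hBm : MeasurableSet B := D.meas r 0
  have hBμ : μ.real B = 1 / 2 ^ r := D.unif r 0
  have hpos : 0 < μ.real B := by rw [hBμ]; positivity
  -- the points never coming from `B`
  set M : Set X := {x | ∀ n : ℕ, (T.1.symm : X → X)^[n] x ∉ B} with hM
  have hsm : ∀ n : ℕ, Measurable ((T.1.symm : X → X)^[n]) := fun n => T.1.symm.measurable.iterate n
  have hMm : MeasurableSet M := by
    have : M = ⋂ n : ℕ, ((T.1.symm : X → X)^[n] ⁻¹' B)ᶜ := by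
      ext x; simp [hM]
    rw [this]
    exact MeasurableSet.iInter fun n => ((hsm n) hBm).compl
  have hM0 : μ.real M = 0 := by
    have h1 := hT B M hBm hMm
    have h2 : ∀ n : ℕ, μ.real (B ∩ (T.1 : X → X)^[n] ⁻¹' M) = 0 := by
      intro n
      have : B ∩ (T.1 : X → X)^[n] ⁻¹' M = ∅ := by
        ext x
        simp only [mem_inter_iff, mem_preimage, mem_empty_iff_false, iff_false, not_and]
        intro hx hxM
        have := hxM n
        rw [symm_it] at this
        exact this hx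
      rw [this]; simp
    simp_rw [h2] at h1
    have h3 := tendsto_nhds_unique h1 tendsto_const_nhds
    rcases mul_eq_zero.1 h3 with h | h
    · exact absurd h hpos.ne'
    · exact h
  have hp : ∀ x : X, ∃ n : ℕ, (T.1.symm : X → X)^[n] x ∈ B ∨ x ∈ M := by
    intro x
    by_cases hx : x ∈ M
    · exact ⟨0, Or.inr hx⟩
    · simp only [hM, mem_ofPred_eq, not_forall, not_not] at hx
      obtain ⟨n, hn⟩ := hx
      exact ⟨n, Or.inl hn⟩
  have hτm : Measurable (fun x => Nat.find (hp x)) := by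
    refine measurable_find hp fun n => ?_
    exact ((hsm n) hBm).union hMm
  refine ⟨fun x => Nat.find (hp x), hτm, ((T.1 : X → X) ⁻¹' B) ∪ M, (T.1.measurable hBm).union hMm, ?_, ?_⟩
  · refine lt_of_le_of_lt (measureReal_union_le _ _) ?_
    rw [hM0, add_zero, T.2.measureReal_preimage hBm.nullMeasurableSet, hBμ]
    exact hr2
  · intro x hx
    simp only [mem_union, mem_preimage, not_or] at hx
    obtain ⟨hx1, hx2⟩ := hx
    have hx3 : T.1 x ∉ M := by
      intro h
      apply hx2
      intro n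
      have := h (n + 1)
      rw [Function.iterate_succ_apply] at this
      simpa using this
    rw [Nat.find_eq_iff]
    refine ⟨?_, ?_⟩
    · left
      rw [Function.iterate_succ_apply]
      have h1 := Nat.find_spec (hp x)
      rcases h1 with h1 | h1
      · simpa using h1
      · exact absurd h1 hx2
    · intro n hn h1
      rcases h1 with h1 | h1
      · cases n with
        | zero => exact hx1 h1
        | succ n =>
          rw [Function.iterate_succ_apply] at h1
          have h2 : (T.1.symm : X → X)^[n] x ∈ B := by simpa using h1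
          have hn' : n + 1 < Nat.find (hp x) + 1 := hn
          have h3 := Nat.find_min (hp x) (m := n) (by omega)
          exact h3 (Or.inl h2)
      · exact hx3 h1

/-- labels constant along blocks -/
def Gam (D : YS μ) (T : X ≃ᵐ X) (τ : X → ℕ) (r n : ℕ) (x : X) : Fin r → ZMod 2 :=
  D.v r ((T : X → X)^[n] ((T.symm : X → X)^[τ x] x))

lemma Gam_step (D : YS μ) (T : X ≃ᵐ X) (τ : X → ℕ) (r n : ℕ) (x : X) (h : τ (T x) = τ x + 1) :
    Gam D T τ r n (T x) = Gam D T τ r n x := by
  unfold Gam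
  rw [h, Function.iterate_succ_apply]
  simp

lemma meas_tau {τ : X → ℕ} (hτ : Measurable τ) (f : ℕ → X → X) (hf : ∀ n, Measurable (f n)) :
    Measurable (fun x => f (τ x) x) := by
  intro B hB
  have : (fun x => f (τ x) x) ⁻¹' B = ⋃ n : ℕ, (τ ⁻¹' {n} ∩ (f n) ⁻¹' B) := by
    ext x
    simp
  rw [this]
  exact MeasurableSet.iUnion fun n => (hτ (measurableSet_singleton n)).inter (hf n hB)

lemma Gam_meas (D : YS μ) (T : X ≃ᵐ X) {τ : X → ℕ} (hτ : Measurable τ) (r n : ℕ) (w : Fin r → ZMod 2) :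
    MeasurableSet {x | Gam D T τ r n x = w} := by
  have h1 : Measurable (fun x => (T.symm : X → X)^[τ x] x) :=
    meas_tau hτ (fun n => (T.symm : X → X)^[n]) (fun n => T.symm.measurable.iterate n)
  exact ((T.measurable.iterate n).comp h1) (D.meas r w)

/-- the labels become independent of any fixed set -/
theorem Gam_indep (D : YS μ) (T : AU μ) (hT : Mix2 μ (T.1 : X → X)) {τ : X → ℕ} (hτ : Measurable τ) (r : ℕ)
    (A : Set X) (hA : MeasurableSet A) (w : Fin r → ZMod 2) :
    Tendsto (fun n : ℕ => μ.real (A ∩ {x | Gam D T.1 τ r n x = w})) atTop (𝓝 (μ.real A * (1 / 2 ^ r))) := by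
  -- decomposition along `τ`
  have hV : MeasurableSet {x | D.v r x = w} := D.meas r w
  have hpart : ∀ (E : Set X), MeasurableSet E → ∀ S : ℕ, μ.real E =
      (∑ s ∈ Finset.range S, μ.real (E ∩ τ ⁻¹' {s})) + μ.real (E ∩ {x | S ≤ τ x}) := by
    intro E hE S
    have h1 : E = (⋃ s ∈ Finset.range S, (E ∩ τ ⁻¹' {s})) ∪ (E ∩ {x | S ≤ τ x}) := by
      ext x
      simp only [mem_union, mem_iUnion, Finset.mem_range, mem_inter_iff, mem_preimage, mem_singleton_iff,
        mem_ofPred_eq, exists_prop]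
      constructor
      · intro hx
        rcases lt_or_ge (τ x) S with h | h
        · exact Or.inl ⟨τ x, h, hx, rfl⟩
        · exact Or.inr ⟨hx, h⟩
      · rintro (⟨s, -, hx, -⟩ | ⟨hx, -⟩) <;> exact hx
    conv_lhs => rw [h1]
    rw [measureReal_union (h₁ := measure_ne_top _ _) (h₂ := measure_ne_top _ _), measureReal_biUnion_finset]
    · intro s _ s' _ hss
      rw [Function.onFun, Set.disjoint_left]
      rintro x ⟨-, h2⟩ ⟨-, h3⟩
      exact hss (h2.symm.trans h3)
    · intro s _
      exact hE.inter (hτ (measurableSet_singleton s))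
    · rw [Set.disjoint_left]
      intro x hx hx2
      simp only [mem_iUnion, Finset.mem_range, mem_inter_iff, mem_preimage, mem_singleton_iff,
        exists_prop] at hx
      obtain ⟨s, hs, -, h2⟩ := hx
      have h3 : S ≤ τ x := hx2.2
      omega
    · exact hE.inter (hτ measurableSet_Ici)
  rw [Metric.tendsto_atTop]
  intro ε hε
  -- tail
  have htail : ∃ S : ℕ, μ.real {x | S ≤ τ x} < ε / 4 := by
    have h1 : Tendsto (fun S : ℕ => μ {x | S ≤ τ x}) atTop (𝓝 0) := by
      have h2 : (⋂ S : ℕ, {x | S ≤ τ x}) = ∅ := by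
        ext x
        simp only [mem_iInter, mem_ofPred_eq, mem_empty_iff_false, iff_false, not_forall, not_le]
        exact ⟨τ x + 1, by omega⟩
      rw [← measure_empty (μ := μ), ← h2]
      apply tendsto_measure_iInter_atTop
      · intro n
        exact (hτ measurableSet_Ici).nullMeasurableSet
      · intro a b hab z hz
        exact le_trans hab hz
      · exact ⟨0, measure_ne_top _ _⟩
    have hev := h1.eventually_lt_const (show (0 : ℝ≥0∞) < ENNReal.ofReal (ε / 4) by positivity)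
    obtain ⟨S, hS⟩ := hev.exists
    exact ⟨S, by rw [measureReal_def]; exact (ENNReal.lt_ofReal_iff_toReal_lt (measure_ne_top _ _)).1 hS⟩
  obtain ⟨S, hS⟩ := htail
  -- each piece
  have hpiece : ∀ s : ℕ, Tendsto (fun n : ℕ => μ.real ((A ∩ τ ⁻¹' {s}) ∩ {x | Gam D T.1 τ r n x = w})) atTop
      (𝓝 (μ.real (A ∩ τ ⁻¹' {s}) * (1 / 2 ^ r))) := by
    intro s
    have h1 := hT (A ∩ τ ⁻¹' {s}) {x | D.v r x = w} (hA.inter (hτ (measurableSet_singleton s))) hV
    rw [D.unif r w] at h1
    have h2 := h1.comp (tendsto_sub_atTop_nat s)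
    refine h2.congr' ?_
    filter_upwards [eventually_ge_atTop s] with n hn
    simp only [Function.comp]
    congr 1
    ext x
    simp only [mem_inter_iff, mem_preimage, mem_singleton_iff, mem_ofPred_eq]
    constructor
    · rintro ⟨⟨h3, h4⟩, h5⟩
      refine ⟨⟨h3, h4⟩, ?_⟩
      unfold Gam
      rw [h4, it_symm T.1 n s hn]
      exact h5
    · rintro ⟨⟨h3, h4⟩, h5⟩
      refine ⟨⟨h3, h4⟩, ?_⟩
      unfold Gam at h5
      rw [h4, it_symm T.1 n s hn] at h5
      exact h5
  have hsum : Tendsto (fun n : ℕ => ∑ s ∈ Finset.range S, μ.real ((A ∩ τ ⁻¹' {s}) ∩ {x | Gam D T.1 τ r n x = w}))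
      atTop (𝓝 (∑ s ∈ Finset.range S, μ.real (A ∩ τ ⁻¹' {s}) * (1 / 2 ^ r))) :=
    tendsto_finsetSum _ fun s _ => hpiece s
  rw [Metric.tendsto_atTop] at hsum
  obtain ⟨N, hN⟩ := hsum (ε / 2) (by positivity)
  refine ⟨N, fun n hn => ?_⟩
  have h1 := hN n hn
  rw [Real.dist_eq, abs_lt] at h1 ⊢
  have hG := Gam_meas D T.1 hτ r n w
  have h2 := hpart (A ∩ {x | Gam D T.1 τ r n x = w}) (hA.inter hG) S
  have h3 := hpart A hA S
  have h4 : ∀ s, (A ∩ {x | Gam D T.1 τ r n x = w}) ∩ τ ⁻¹' {s} = (A ∩ τ ⁻¹' {s}) ∩ {x | Gam D T.1 τ r n x = w} :=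
    fun s => by ext x; simp only [mem_inter_iff]; tauto
  simp_rw [h4] at h2
  have h5 : μ.real ((A ∩ {x | Gam D T.1 τ r n x = w}) ∩ {x | S ≤ τ x}) ≤ μ.real {x | S ≤ τ x} :=
    measureReal_mono inter_subset_right
  have h6 : μ.real (A ∩ {x | S ≤ τ x}) ≤ μ.real {x | S ≤ τ x} := measureReal_mono inter_subset_right
  have h7 : 0 ≤ μ.real ((A ∩ {x | Gam D T.1 τ r n x = w}) ∩ {x | S ≤ τ x}) := measureReal_nonneg
  have h8 : 0 ≤ μ.real (A ∩ {x | S ≤ τ x}) := measureReal_nonneg
  have h9 : (1 : ℝ) / 2 ^ r ≤ 1 := by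
    rw [div_le_one (by positivity)]
    exact one_le_pow₀ (by norm_num)
  have h10 : (0 : ℝ) ≤ 1 / 2 ^ r := by positivity
  rw [← Finset.sum_mul] at h1
  rw [h2, h3, add_mul]
  have h11 : μ.real (A ∩ {x | S ≤ τ x}) * (1 / 2 ^ r) ≤ ε / 4 := by nlinarith
  have h12 : 0 ≤ μ.real (A ∩ {x | S ≤ τ x}) * (1 / 2 ^ r) := by positivity
  constructor <;> linarith [h1.1, h1.2]

end Pool.Agent.R202.MM
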