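import Pool.Agent.R202.MM.Est
import Pool.Agent.R202.MM.Cells
import Pool.Agent.R202.MM.Time
import Pool.Agent.W744.NG.All

set_option autoImplicit false
set_option linter.unusedSectionVars false

/-!
The generic extension of a multiply mixing automorphism is multiply mixing: density, openness, and the
Baire category argument.
-/

namespace Pool.Agent.R202.MM

open MeasureTheory Set Filter Topology
open scoped ENNReal symmDiff
open Pool.H359R3 Pool.H359R3.IX
open Pool.Agent.W744.NG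

section times
variable {X : Type} [MeasurableSpace X] {μ : Measure X} [IsProbabilityMeasure μ]

theorem time_exists {T : X → X} (hT : MeasurePreserving T μ μ) {k : ℕ} (hk1 : 1 ≤ k) (hk : MixK μ T k)
    {G : Type} [Fintype G] (B : Fin (k + 1) → G → Set X) (hB : ∀ j w, MeasurableSet (B j w)) (κ : ℝ)
    (hκ : 0 < κ) : ∃ L : ℕ, 0 < L ∧ ∃ N : ℕ, ∀ n : Fin (k + 1) → ℕ, Adm N n → ∀ w : Fin (k + 1) → G,
      ∫ x, |(∑ t ∈ Finset.range L, PI T (fun j => B j (w j)) t n x) / L - ∏ j, μ.real (B j (w j))| ∂μ ≤ κ := by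
  classical
  have hmix := mix2_of_mixK hk1 hk
  choose L0 hL0 hL0' using fun w : Fin (k + 1) → G =>
    avg_pi hT hmix (B := fun j => B j (w j)) (fun j => hB j (w j)) (κ / 2) (by positivity)
  set L : ℕ := 1 + Finset.univ.sup L0 with hL
  have hLw : ∀ w, L0 w ≤ L := fun w => (Finset.le_sup (Finset.mem_univ w)).trans (Nat.le_add_left _ _)
  refine ⟨L, by omega, ?_⟩
  have htr : ∀ w : Fin (k + 1) → G, ∃ N : ℕ, ∀ n : Fin (k + 1) → ℕ, Adm N n →
      ∫ x, |(∑ t ∈ Finset.range L, PI T (fun j => B j (w j)) t n x) / L - ∏ j, μ.real (B j (w j))| ∂μ ≤ κ := by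
    intro w
    set F : (Fin (k + 1) → (Fin L → Bool)) → ℝ := fun v =>
      |(∑ t : Fin L, ∏ j, (if v j t = true then (1 : ℝ) else 0)) / L - ∏ j, μ.real (B j (w j))| with hF
    set Q : Fin (k + 1) → X → (Fin L → Bool) := fun j x t => decide (T^[t] x ∈ B j (w j)) with hQ
    have hQm : ∀ j v, MeasurableSet {x | Q j x = v} := by
      intro j v
      have e : {x | Q j x = v} = ⋂ t : Fin L, {x | decide (T^[t] x ∈ B j (w j)) = v t} := by
        ext x
        simp only [hQ, mem_ofPred_eq, mem_iInter, funext_iff]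
      rw [e]
      refine MeasurableSet.iInter fun t => ?_
      have hm : MeasurableSet {x | T^[t] x ∈ B j (w j)} := (hT.measurable.iterate t) (hB j (w j))
      cases hv : v t with
      | true =>
        have e2 : {x | decide (T^[t] x ∈ B j (w j)) = true} = {x | T^[t] x ∈ B j (w j)} := by
          ext x; simp
        rw [e2]; exact hm
      | false =>
        have e2 : {x | decide (T^[t] x ∈ B j (w j)) = false} = {x | T^[t] x ∈ B j (w j)}ᶜ := by
          ext x; simp
        rw [e2]; exact hm.compl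
    obtain ⟨N, hN⟩ := transfer hT.measurable hk Q hQm F (κ / 2) (by positivity)
    refine ⟨N, fun n hn => ?_⟩
    have h1 := hN n hn
    have hi : ∀ (j : Fin (k + 1)) (y : X) (t : Fin L), (if Q j y t = true then (1 : ℝ) else 0) =
        (B j (w j)).indicator (fun _ => (1 : ℝ)) (T^[t] y) := by
      intro j y t
      by_cases h : T^[t] y ∈ B j (w j)
      · rw [indicator_of_mem h, if_pos]
        simp only [hQ, decide_eq_true_eq]
        exact h
      · rw [indicator_of_notMem h, if_neg]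
        simp only [hQ, decide_eq_true_eq]
        exact h
    have e1 : ∀ x, F (fun j => Q j (T^[n j] x)) =
        |(∑ t ∈ Finset.range L, PI T (fun j => B j (w j)) t n x) / L - ∏ j, μ.real (B j (w j))| := by
      intro x
      simp only [hF]
      rw [Finset.sum_range]
      simp_rw [hi]
      rfl
    have e2 : ∀ x : Fin (k + 1) → X, F (fun j => Q j (x j)) =
        |(∑ t ∈ Finset.range L, PT T (fun j => B j (w j)) t x) / L - ∏ j, μ.real (B j (w j))| := by
      intro x
      simp only [hF]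
      rw [Finset.sum_range]
      simp_rw [hi]
      rfl
    simp_rw [e1, e2] at h1
    have h2 := hL0' w L (hLw w)
    rw [abs_lt] at h1
    linarith [h1.2]
  choose N hN using htr
  exact ⟨Finset.univ.sup N, fun n hn w => hN w n (hn.mono (Finset.le_sup (Finset.mem_univ w)))⟩

end times

section
variable {X Y : Type} [MeasurableSpace X] [StandardBorelSpace X] [MeasurableSpace Y] [StandardBorelSpace Y]
  {μ : Measure X} {ν : Measure Y} [IsProbabilityMeasure μ] [IsProbabilityMeasure ν]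

/-- nearby cocycles give nearby skew products -/
theorem near (T : AU μ) (α : Coc X ν) (t : ℕ) (C : Set (X × Y)) (hC : MeasurableSet C) (η : ℝ) (hη : 0 < η) :
    {Ψ : Coc X ν | (μ.prod ν).real (((sk (T.1 : X → X) Ψ)^[t] ⁻¹' C) ∆ ((sk (T.1 : X → X) α)^[t] ⁻¹' C)) < η} ∈
      @nhds (Coc X ν) (tC μ ν) α := by
  obtain ⟨F⟩ := exists_DF (μ.prod ν)
  have h1 := Open.skA_cont (μ := μ) (ν := ν) Ind.main F T
  have h2 := cont_pow F t
  have h3 : @Continuous (Coc X ν) (AU (μ.prod ν)) (tC μ ν) (un F).toTopologicalSpace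
      (fun Ψ => powA (skA T Ψ) t) :=
    @Continuous.comp _ _ _ (tC μ ν) (un F).toTopologicalSpace (un F).toTopologicalSpace _ _ h2 h1
  have h4 := (@continuous_iff_continuousAt _ _ (tC μ ν) (un F).toTopologicalSpace _).1 h3 α
  have h5 := of_tendsto_un F (@nhds (Coc X ν) (tC μ ν) α) (fun Ψ => powA (skA T Ψ) t) (powA (skA T α) t) h4
    C hC (measure_lt_top _ _)
  have h6 := h5.eventually_lt_const (show (0 : ℝ≥0∞) < ENNReal.ofReal η by positivity)
  filter_upwards [h6] with Ψ hΨ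
  have e : ∀ Ψ : Coc X ν, ((powA (skA T Ψ) t).1 : X × Y → X × Y) ⁻¹' C = (sk (T.1 : X → X) Ψ)^[t] ⁻¹' C := by
    intro Ψ
    ext z
    simp only [mem_preimage]
    rw [powA_apply]
    rfl
  rw [e, e] at hΨ
  show (μ.prod ν).real _ < η
  rw [measureReal_def]
  exact (ENNReal.lt_ofReal_iff_toReal_lt (measure_ne_top _ _)).1 hΨ

/-- good cocycles -/
def GS (ν : Measure Y) (T : AU μ) (k : ℕ) (C : Fin (k + 1) → Set (X × Y)) (ε : ℝ) : Set (Coc X ν) :=
  {Ψ | ∃ N : ℕ, ∀ n : Fin (k + 1) → ℕ, Adm N n →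
    |(μ.prod ν).real (⋂ i, (sk (T.1 : X → X) Ψ)^[n i] ⁻¹' C i) - ∏ i, (μ.prod ν).real (C i)| < ε}


lemma wd_self {r : ℕ} (w : Wd r) : w + w = 0 := by
  funext i
  show w i + w i = 0
  generalize w i = c
  revert c
  decide

lemma fin_set {Z W : Type} [MeasurableSpace Z] [Finite W] (q : Z → W) (hq : ∀ w, MeasurableSet {z | q z = w})
    (S : Set W) : MeasurableSet {z | q z ∈ S} := by
  have : {z | q z ∈ S} = ⋃ w ∈ S, {z | q z = w} := by
    ext z
    simp
  rw [this]
  exact MeasurableSet.biUnion (Set.to_countable _) fun w _ => hq w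

theorem dens (DX : YS μ) (DY : YS ν) (T : AU μ) (k : ℕ) (hk1 : 1 ≤ k) (hk : MixK μ (T.1 : X → X) k)
    (C : Fin (k + 1) → Set (X × Y)) (hC : ∀ j, MeasurableSet (C j)) (ε : ℝ) (hε : 0 < ε) (Φ : Coc X ν)
    (δ : ℝ) (hδ : 0 < δ) :
    ∃ α : Coc X ν, GS ν T k C ε ∈ @nhds (Coc X ν) (tC μ ν) α ∧
      ∃ E : Set X, MeasurableSet E ∧ μ.real E < δ ∧ ∀ x, x ∉ E → α.1 x = Φ.1 x := by
  classical
  have hmix := mix2_of_mixK hk1 hk
  obtain ⟨τ, hτ, E, hE, hEδ, hτE⟩ := tau_exists DX T hmix δ hδ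
  obtain ⟨θ, hθ⟩ := Theta.theta X Y μ ν T Φ τ hτ
  set η : ℝ := ε / (4 * ((k : ℝ) + 2)) with hη
  have hηpos : 0 < η := by positivity
  set C' : Fin (k + 1) → Set (X × Y) := fun j => {z | (z.1, (θ.1 z.1).1 z.2) ∈ C j} with hC'
  have hC'm : ∀ j, MeasurableSet (C' j) := fun j => (measurable_fst.prodMk θ.2) (hC j)
  obtain ⟨r, S, hS⟩ := good_fin DX DY C' hC'm (η / 2) (by positivity)
  set M1 : ℝ := (Fintype.card (Wd r × Wd r) : ℝ) + 1 with hM1
  have hM1pos : 0 < M1 := by positivity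
  -- the labels
  have hev : ∀ᶠ n : ℕ in atTop, ∀ p ∈ (Finset.univ : Finset (Wd r × Wd r)),
      |μ.real ({x | DX.v r x = p.1} ∩ {x | Gam DX T.1 τ r n x = p.2}) -
        μ.real {x | DX.v r x = p.1} * (1 / 2 ^ r)| < η / (2 * M1) := by
    rw [Filter.eventually_all_finset]
    intro p _
    have h1 := Gam_indep DX T hmix hτ r {x | DX.v r x = p.1} (DX.meas r p.1) p.2
    have h2 := Metric.tendsto_nhds.1 h1 (η / (2 * M1)) (by positivity)
    filter_upwards [h2] with n hn
    rwa [Real.dist_eq] at hn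
  obtain ⟨n₀, hn₀⟩ := hev.exists
  set Γ : X → Fin r → ZMod 2 := Gam DX T.1 τ r n₀ with hΓdef
  have hΓ : ∀ w, MeasurableSet {x | Γ x = w} := fun w => Gam_meas DX T.1 hτ r n₀ w
  obtain ⟨α, hα⟩ := Theta.alpha X Y μ ν T θ DY r Γ hΓ
  refine ⟨α, ?_, E, hE, hEδ, ?_⟩
  swap
  · intro x hx
    have h1 := hτE x hx
    have h2 : Γ (T.1 x) = Γ x := Gam_step DX T.1 τ r n₀ x h1
    apply Subtype.ext
    apply MeasurableEquiv.ext
    funext y
    rw [hα x y, h2, MeasurableEquiv.symm_apply_apply, hθ x h1, MeasurableEquiv.apply_symm_apply]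
  -- the sets
  set B : Fin (k + 1) → Wd r → Set X := fun j w => {x | (DX.v r x, w + Γ x) ∈ S j} with hBdef
  have hqm : ∀ (w : Wd r) (p : Wd r × Wd r), MeasurableSet {x | (DX.v r x, w + Γ x) = p} := by
    intro w p
    have e : {x | (DX.v r x, w + Γ x) = p} = {x | DX.v r x = p.1} ∩ {x | Γ x = w + p.2} := by
      ext x
      simp only [mem_ofPred_eq, mem_inter_iff, Prod.ext_iff]
      refine and_congr_right fun _ => ?_
      constructor
      · intro h
        rw [← h, ← add_assoc, wd_self, zero_add]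
      · intro h
        rw [h, ← add_assoc, wd_self, zero_add]
    rw [e]
    exact (DX.meas r _).inter (hΓ _)
  have hqe : ∀ (w : Wd r) (p : Wd r × Wd r), {x | (DX.v r x, w + Γ x) = p} =
      {x | DX.v r x = p.1} ∩ {x | Γ x = w + p.2} := by
    intro w p
    ext x
    simp only [mem_ofPred_eq, mem_inter_iff, Prod.ext_iff]
    refine and_congr_right fun _ => ?_
    constructor
    · intro h
      rw [← h, ← add_assoc, wd_self, zero_add]
    · intro h
      rw [h, ← add_assoc, wd_self, zero_add]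
  have hBm : ∀ j w, MeasurableSet (B j w) := fun j w => fin_set (fun x => (DX.v r x, w + Γ x)) (hqm w) (S j)
  have hcellm : ∀ p : Wd r × Wd r, MeasurableSet {z : X × Y | cell DX DY r z = p} := fun p =>
    cell_meas DX DY r p
  have hcellv : ∀ p : Wd r × Wd r, (μ.prod ν).real {z : X × Y | cell DX DY r z = p} =
      1 / 2 ^ r * (1 / 2 ^ r) := by
    intro p
    have e : {z : X × Y | cell DX DY r z = p} = {x | DX.v r x = p.1} ×ˢ {y | DY.v r y = p.2} := by
      ext z
      simp [cell, Prod.ext_iff]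
    rw [e, measureReal_prod_prod, DX.unif, DY.unif]
  have hBv : ∀ j w, |μ.real (B j w) - (μ.prod ν).real (C j)| ≤ η := by
    intro j w
    have e1 : (μ.prod ν).real (C j) = (μ.prod ν).real (C' j) := by
      have := (sk_mp (oneA : AU μ) θ).measureReal_preimage (hC j).nullMeasurableSet
      rw [← this]
      rfl
    have e2 : |(μ.prod ν).real (C' j) - (μ.prod ν).real (cell DX DY r ⁻¹' S j)| ≤ η / 2 :=
      (abs_measureReal_sub_le_measureReal_symmDiff (hC'm j).nullMeasurableSet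
        (cell_set DX DY r (S j)).nullMeasurableSet).trans (hS j).le
    have e3 : (μ.prod ν).real (cell DX DY r ⁻¹' S j) =
        ∑ p, if p ∈ S j then (1 / 2 ^ r * (1 / 2 ^ r) : ℝ) else 0 := by
      have := real_fin (m := μ.prod ν) (cell DX DY r) hcellm (S j)
      simp_rw [hcellv] at this
      exact this
    have e4 : μ.real (B j w) = ∑ p, if p ∈ S j then μ.real {x | (DX.v r x, w + Γ x) = p} else 0 :=
      real_fin (m := μ) (fun x => (DX.v r x, w + Γ x)) (hqm w) (S j)
    have e5 : |μ.real (B j w) - (μ.prod ν).real (cell DX DY r ⁻¹' S j)| ≤ η / 2 := by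
      rw [e3, e4, ← Finset.sum_sub_distrib]
      refine (Finset.abs_sum_le_sum_abs _ _).trans ?_
      have h6 : ∀ p ∈ (Finset.univ : Finset (Wd r × Wd r)),
          |(if p ∈ S j then μ.real {x | (DX.v r x, w + Γ x) = p} else 0) -
            (if p ∈ S j then (1 / 2 ^ r * (1 / 2 ^ r) : ℝ) else 0)| ≤ η / (2 * M1) := by
        intro p _
        by_cases hp : p ∈ S j
        · rw [if_pos hp, if_pos hp, hqe]
          have h7 := hn₀ (p.1, w + p.2) (Finset.mem_univ _)
          simp only [DX.unif] at h7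
          exact h7.le
        · rw [if_neg hp, if_neg hp, sub_zero, abs_zero]
          positivity
      refine (Finset.sum_le_sum h6).trans ?_
      rw [Finset.sum_const, Finset.card_univ, nsmul_eq_mul, mul_div_assoc', div_le_div_iff₀ (by positivity)
        (by norm_num)]
      have : (Fintype.card (Wd r × Wd r) : ℝ) ≤ M1 := by rw [hM1]; linarith
      nlinarith
    rw [e1]
    have h8 := abs_sub_le (μ.real (B j w)) ((μ.prod ν).real (cell DX DY r ⁻¹' S j)) ((μ.prod ν).real (C' j))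
    rw [abs_sub_comm ((μ.prod ν).real (cell DX DY r ⁻¹' S j))] at h8
    linarith
  -- the fibre label
  set W : X × Y → Wd r := fun z => DY.v r (Dens.PsiF DY Γ θ z).2 with hWdef
  have hPsi := Dens.PsiF_mp (μ := μ) DY Γ hΓ θ
  have hWm : ∀ w, MeasurableSet {z | W z = w} := fun w =>
    (measurable_snd.comp hPsi.measurable) (DY.meas r w)
  set ζ : X × Y → X × Y := fun z => (z.1, (θ.1 z.1).1.symm z.2) with hζ
  have hζmp : MeasurePreserving ζ (μ.prod ν) (μ.prod ν) :=
    MeasurePreserving.skew_product (μc := ν) (μd := ν) (MeasurePreserving.id μ)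
      (g := fun x y => (θ.1 x).1.symm y) (Dens.inv_meas θ)
      (Eventually.of_forall fun x => (mp_symm (θ.1 x)).map_eq)
  have hD0 : ∀ j, {z : X × Y | z.1 ∈ B j (W z)} = ζ ⁻¹' (cell DX DY r ⁻¹' S j) := by
    intro j
    ext z
    have h1 : W z + Γ z.1 = DY.v r ((θ.1 z.1).1.symm z.2) := by
      show DY.v r ((DY.act r (Γ z.1)).1 ((θ.1 z.1).1.symm z.2)) + Γ z.1 = _
      rw [DY.v_act, add_assoc, wd_self, add_zero]
    show (DX.v r z.1, W z + Γ z.1) ∈ S j ↔ (DX.v r z.1, DY.v r ((θ.1 z.1).1.symm z.2)) ∈ S j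
    rw [h1]
  have hC0 : ∀ j, C j = ζ ⁻¹' C' j := by
    intro j
    ext z
    show z ∈ C j ↔ (z.1, (θ.1 z.1).1 ((θ.1 z.1).1.symm z.2)) ∈ C j
    rw [MeasurableEquiv.apply_symm_apply]
  have hCD : ∀ j, (μ.prod ν).real (C j ∆ {z : X × Y | z.1 ∈ B j (W z)}) ≤ η / 2 := by
    intro j
    rw [hD0, hC0 j]
    have e : (ζ ⁻¹' C' j) ∆ (ζ ⁻¹' (cell DX DY r ⁻¹' S j)) = ζ ⁻¹' (C' j ∆ (cell DX DY r ⁻¹' S j)) := by
      ext z
      simp only [mem_symmDiff, mem_preimage]
    rw [e, hζmp.measureReal_preimage ((hC'm j).symmDiff (cell_set DX DY r (S j))).nullMeasurableSet]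
    exact (hS j).le
  have hDm : ∀ j, MeasurableSet {z : X × Y | z.1 ∈ B j (W z)} := by
    intro j
    rw [hD0]
    exact hζmp.measurable (cell_set DX DY r (S j))
  have hDt : ∀ t j, {z : X × Y | (T.1 : X → X)^[t] z.1 ∈ B j (W z)} =
      (sk (T.1 : X → X) α)^[t] ⁻¹' {z : X × Y | z.1 ∈ B j (W z)} := by
    intro t j
    ext z
    have h1 := Dens.conj_iter DY Γ T θ α hα t z
    have h2 : ((sk (T.1 : X → X) α)^[t] z).1 = (T.1 : X → X)^[t] z.1 := congrArg Prod.fst h1
    have h3 : W ((sk (T.1 : X → X) α)^[t] z) = W z := by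
      show DY.v r (Dens.PsiF DY Γ θ ((sk (T.1 : X → X) α)^[t] z)).2 = _
      rw [h1]
    show (T.1 : X → X)^[t] z.1 ∈ B j (W z) ↔
      ((sk (T.1 : X → X) α)^[t] z).1 ∈ B j (W ((sk (T.1 : X → X) α)^[t] z))
    rw [h2, h3]
  -- times
  set M : ℝ := (Fintype.card (Fin (k + 1) → Wd r) : ℝ) with hM
  obtain ⟨L, hL, N, hN⟩ := time_exists T.2 hk1 hk B hBm (η / (M + 1)) (by positivity)
  have hnear : ∀ᶠ Ψ in @nhds (Coc X ν) (tC μ ν) α, ∀ t ∈ Finset.range L, ∀ j ∈ (Finset.univ : Finset (Fin (k + 1))),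
      (μ.prod ν).real (((sk (T.1 : X → X) Ψ)^[t] ⁻¹' C j) ∆ ((sk (T.1 : X → X) α)^[t] ⁻¹' C j)) < η / 2 := by
    rw [Filter.eventually_all_finset]
    intro t _
    rw [Filter.eventually_all_finset]
    intro j _
    exact near T α t (C j) (hC j) (η / 2) (by positivity)
  filter_upwards [hnear] with Ψ hΨ
  refine ⟨N, fun n hn => ?_⟩
  have hfin := est (μ := μ) (lam := μ.prod ν) T.1.measurable (sk_mp T Ψ) (p := Prod.fst) measurePreserving_fst
    (fun z => rfl) W hWm C hC B hBm L hL η (η / (M + 1)) (by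
      intro t ht j
      have h1 := hΨ t (Finset.mem_range.2 ht) j (Finset.mem_univ _)
      rw [hDt]
      have h2 : (μ.prod ν).real (((sk (T.1 : X → X) α)^[t] ⁻¹' C j) ∆
          ((sk (T.1 : X → X) α)^[t] ⁻¹' {z : X × Y | z.1 ∈ B j (W z)})) ≤ η / 2 := by
        have e : ((sk (T.1 : X → X) α)^[t] ⁻¹' C j) ∆
            ((sk (T.1 : X → X) α)^[t] ⁻¹' {z : X × Y | z.1 ∈ B j (W z)}) =
            (sk (T.1 : X → X) α)^[t] ⁻¹' (C j ∆ {z : X × Y | z.1 ∈ B j (W z)}) := by
          ext z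
          simp only [mem_symmDiff, mem_preimage]
        rw [e, ((sk_mp T α).iterate t).measureReal_preimage ((hC j).symmDiff (hDm j)).nullMeasurableSet]
        exact hCD j
      have h3 := (measureReal_mono (μ := μ.prod ν) (symmDiff_triangle ((sk (T.1 : X → X) Ψ)^[t] ⁻¹' C j)
        ((sk (T.1 : X → X) α)^[t] ⁻¹' C j)
        ((sk (T.1 : X → X) α)^[t] ⁻¹' {z : X × Y | z.1 ∈ B j (W z)}))).trans (measureReal_union_le _ _)
      linarith) hBv n (hN n hn)
  rw [Fintype.card_fin] at hfin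
  refine lt_of_le_of_lt hfin ?_
  have h4 : M * (η / (M + 1)) ≤ η := by
    rw [mul_div_assoc', div_le_iff₀ (by positivity)]
    nlinarith
  have h5 : ε = η * (4 * ((k : ℝ) + 2)) := by
    rw [hη]
    field_simp
  have h6 : 2 * (((k + 1 : ℕ) : ℝ) * η) = 2 * ((k : ℝ) + 1) * η := by push_cast; ring
  rw [h6, h5]
  have h7 : (0 : ℝ) ≤ k := by positivity
  nlinarith

/-- the sets are residual -/
theorem res (DX : YS μ) (DY : YS ν) (T : AU μ) (k : ℕ) (hk1 : 1 ≤ k) (hk : MixK μ (T.1 : X → X) k)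
    (C : Fin (k + 1) → Set (X × Y)) (hC : ∀ j, MeasurableSet (C j)) (ε : ℝ) (hε : 0 < ε) :
    GS ν T k C ε ∈ @residual (Coc X ν) (tC μ ν) := by
  let _ : TopologicalSpace (Coc X ν) := tC μ ν
  refine Filter.mem_of_superset (residual_of_dense_open (isOpen_interior (s := GS ν T k C ε)) ?_) interior_subset
  rw [dense_iff_inter_open]
  intro O hO hne
  obtain ⟨Φ, hΦ⟩ := hne
  have h2 : ∀ i : ℕ, ∃ α : Coc X ν, GS ν T k C ε ∈ nhds α ∧ ∃ E : Set X, MeasurableSet E ∧
      μ.real E < 1 / ((i : ℝ) + 1) ∧ ∀ x, x ∉ E → α.1 x = Φ.1 x := fun i =>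
    dens DX DY T k hk1 hk C hC ε hε Φ _ (by positivity)
  choose α hα E hE1 hE2 hE3 using h2
  have h3 : Tendsto (fun i => μ.real (E i)) atTop (𝓝 0) :=
    squeeze_zero (fun i => measureReal_nonneg) (fun i => (hE2 i).le) tendsto_one_div_add_atTop_nhds_zero_nat
  have h4 := Final.tend_of_agree (μ := μ) Ind.main Φ α E hE1 h3 hE3
  obtain ⟨i, hi⟩ := (h4.eventually (hO.mem_nhds hΦ)).exists
  exact ⟨α i, hi, mem_interior_iff_mem_nhds.2 (hα i)⟩

/-- mixing can be checked on unions of cells -/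
theorem mix_of_cells (DX : YS μ) (DY : YS ν) (R : X × Y → X × Y) (hR : MeasurePreserving R (μ.prod ν) (μ.prod ν))
    (k : ℕ) (h : ∀ (r : ℕ) (S : Fin (k + 1) → Set (Wd r × Wd r)) (m : ℕ), ∃ N : ℕ, ∀ n : Fin (k + 1) → ℕ, Adm N n →
      |(μ.prod ν).real (⋂ i, R^[n i] ⁻¹' (cell DX DY r ⁻¹' S i)) - ∏ i, (μ.prod ν).real (cell DX DY r ⁻¹' S i)| <
        1 / ((m : ℝ) + 1)) : MixK (μ.prod ν) R k := by
  intro A hA ε hε
  obtain ⟨r, S, hS⟩ := good_fin DX DY A hA (ε / (4 * ((k : ℝ) + 1))) (by positivity)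
  obtain ⟨m, hm⟩ := exists_nat_one_div_lt (show (0 : ℝ) < ε / 2 by positivity)
  obtain ⟨N, hN⟩ := h r S m
  refine ⟨N, fun n hn0 hn => ?_⟩
  have h1 := hN n ⟨hn0, hn⟩
  have hRm : ∀ i, Measurable (R^[i]) := fun i => hR.measurable.iterate i
  have h2 := inter_sub_le (μ.prod ν) (fun i => R^[n i] ⁻¹' A i) (fun i => R^[n i] ⁻¹' (cell DX DY r ⁻¹' S i))
    (fun i => (hRm _) (hA i)) (fun i => (hRm _) (cell_set DX DY r (S i)))
  have h3 := prod_sub_le (Finset.univ : Finset (Fin (k + 1))) (fun i => (μ.prod ν).real (A i))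
    (fun i => (μ.prod ν).real (cell DX DY r ⁻¹' S i)) (fun i => ⟨measureReal_nonneg, measureReal_le_one⟩)
    (fun i => ⟨measureReal_nonneg, measureReal_le_one⟩)
  have h4 : ∑ i, (μ.prod ν).real ((R^[n i] ⁻¹' A i) ∆ (R^[n i] ⁻¹' (cell DX DY r ⁻¹' S i))) ≤ ε / 4 := by
    calc _ ≤ ∑ _i : Fin (k + 1), ε / (4 * ((k : ℝ) + 1)) := by
          refine Finset.sum_le_sum fun i _ => ?_
          have e : (R^[n i] ⁻¹' A i) ∆ (R^[n i] ⁻¹' (cell DX DY r ⁻¹' S i)) =
              R^[n i] ⁻¹' (A i ∆ (cell DX DY r ⁻¹' S i)) := by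
            ext z
            simp only [mem_symmDiff, mem_preimage]
          rw [e, (hR.iterate (n i)).measureReal_preimage ((hA i).symmDiff (cell_set DX DY r (S i))).nullMeasurableSet]
          exact (hS i).le
      _ = ε / 4 := by
          rw [Finset.sum_const, Finset.card_univ, Fintype.card_fin, nsmul_eq_mul]
          push_cast
          field_simp
  have h5 : ∑ i, |(μ.prod ν).real (A i) - (μ.prod ν).real (cell DX DY r ⁻¹' S i)| ≤ ε / 4 := by
    calc _ ≤ ∑ _i : Fin (k + 1), ε / (4 * ((k : ℝ) + 1)) := by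
          refine Finset.sum_le_sum fun i _ => ?_
          exact (abs_measureReal_sub_le_measureReal_symmDiff (hA i).nullMeasurableSet
            (cell_set DX DY r (S i)).nullMeasurableSet).trans (hS i).le
      _ = ε / 4 := by
          rw [Finset.sum_const, Finset.card_univ, Fintype.card_fin, nsmul_eq_mul]
          push_cast
          field_simp
  rw [abs_lt] at h1 ⊢
  have h6 := abs_le.1 (h2.trans h4)
  have h7 := abs_le.1 (h3.trans h5)
  constructor <;> linarith [h1.1, h1.2, h6.1, h6.2, h7.1, h7.2]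

/-- the generic extension of an automorphism mixing of order `k` is mixing of order `k` -/
theorem generic (DX : YS μ) (DY : YS ν) (T : AU μ) (k : ℕ) (hk1 : 1 ≤ k) (hk : MixK μ (T.1 : X → X) k) :
    {Φ : Coc X ν | MixK (μ.prod ν) (sk (T.1 : X → X) Φ) k} ∈ @residual (Coc X ν) (tC μ ν) := by
  let _ : TopologicalSpace (Coc X ν) := tC μ ν
  have h1 : (⋂ r : ℕ, ⋂ S : Fin (k + 1) → Set (Wd r × Wd r), ⋂ m : ℕ,
      GS ν T k (fun i => cell DX DY r ⁻¹' S i) (1 / ((m : ℝ) + 1))) ∈ residual (Coc X ν) := by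
    rw [countable_iInter_mem]
    intro r
    rw [countable_iInter_mem]
    intro S
    rw [countable_iInter_mem]
    intro m
    exact res DX DY T k hk1 hk _ (fun i => cell_set DX DY r (S i)) _ (by positivity)
  refine Filter.mem_of_superset h1 ?_
  intro Φ hΦ
  refine mix_of_cells DX DY _ (sk_mp T Φ) k fun r S m => ?_
  simp only [mem_iInter] at hΦ
  exact hΦ r S m

end

end Pool.Agent.R202.MM
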