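import Pool.Agent.R202.MM.Avg

set_option autoImplicit false
set_option linter.unusedSectionVars false

/-!
Transfer of finite-valued functions along multiple mixing, and the main estimate.
-/

namespace Pool.Agent.R202.MM

open MeasureTheory Set Filter Topology
open scoped ENNReal symmDiff

/-- mixing of order `k`, for `k + 1` sets -/
def MixK {Z : Type*} [MeasurableSpace Z] (m : Measure Z) (S : Z → Z) (k : ℕ) : Prop :=
  ∀ A : Fin (k + 1) → Set Z, (∀ i, MeasurableSet (A i)) → ∀ ε : ℝ, 0 < ε → ∃ N : ℕ,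
    ∀ n : Fin (k + 1) → ℕ, n 0 = 0 → (∀ i : Fin k, n i.castSucc + N ≤ n i.succ) →
      |m.real (⋂ i, S^[n i] ⁻¹' A i) - ∏ i, m.real (A i)| < ε

/-- the times are admissible -/
def Adm {k : ℕ} (N : ℕ) (n : Fin (k + 1) → ℕ) : Prop :=
  n 0 = 0 ∧ ∀ i : Fin k, n i.castSucc + N ≤ n i.succ

lemma Adm.mono {k N N' : ℕ} {n : Fin (k + 1) → ℕ} (h : Adm N' n) (hN : N ≤ N') : Adm N n :=
  ⟨h.1, fun i => (Nat.add_le_add_left hN _).trans (h.2 i)⟩

section fin
variable {Z W : Type} [MeasurableSpace Z] [Fintype W] {m : Measure Z} [IsProbabilityMeasure m]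

/-- integral of a function with finitely many values -/
lemma int_fin (q : Z → W) (hq : ∀ w, MeasurableSet {z | q z = w}) (F : W → ℝ) :
    ∫ z, F (q z) ∂m = ∑ w, F w * m.real {z | q z = w} := by
  classical
  have h1 : ∀ z, F (q z) = ∑ w, F w * ({z | q z = w}.indicator (fun _ => (1 : ℝ)) z) := by
    intro z
    rw [Finset.sum_eq_single (q z)]
    · rw [indicator_of_mem (show z ∈ {z' | q z' = q z} from rfl), mul_one]
    · intro w _ hw
      rw [indicator_of_notMem (show z ∉ {z | q z = w} from fun h => hw h.symm), mul_zero]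
    · intro h
      exact absurd (Finset.mem_univ _) h
  simp_rw [h1]
  rw [integral_finsetSum]
  · refine Finset.sum_congr rfl fun w _ => ?_
    rw [integral_const_mul, integral_indicator_const _ (hq w), smul_eq_mul, mul_one]
  · intro w _
    exact (((integrable_const (1 : ℝ)).indicator (hq w))).const_mul _

/-- measure of a set defined by a function with finitely many values -/
lemma real_fin (q : Z → W) (hq : ∀ w, MeasurableSet {z | q z = w}) (S : Set W) [DecidablePred (· ∈ S)] :
    m.real {z | q z ∈ S} = ∑ w, if w ∈ S then m.real {z | q z = w} else 0 := by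
  have h1 := int_fin (m := m) q hq (fun w => if w ∈ S then (1 : ℝ) else 0)
  have h2 : MeasurableSet {z | q z ∈ S} := by
    have : {z | q z ∈ S} = ⋃ w ∈ S, {z | q z = w} := by
      ext z
      simp
    rw [this]
    exact MeasurableSet.biUnion (Set.to_countable _) fun w _ => hq w
  have h3 : ∀ z, (if q z ∈ S then (1 : ℝ) else 0) = {z | q z ∈ S}.indicator (fun _ => (1 : ℝ)) z := by
    intro z
    by_cases h : q z ∈ S
    · rw [if_pos h, indicator_of_mem (show z ∈ {z | q z ∈ S} from h)]
    · rw [if_neg h, indicator_of_notMem (show z ∉ {z | q z ∈ S} from h)]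
  simp_rw [h3] at h1
  rw [integral_indicator_const _ h2, smul_eq_mul, mul_one] at h1
  rw [h1]
  refine Finset.sum_congr rfl fun w _ => ?_
  split_ifs <;> simp

end fin

section transfer
variable {X : Type} [MeasurableSpace X] {μ : Measure X} [IsProbabilityMeasure μ]

theorem transfer {T : X → X} (hTm : Measurable T) {k : ℕ} (hk : MixK μ T k) {V : Type} [Fintype V]
    (Q : Fin (k + 1) → X → V) (hQ : ∀ j v, MeasurableSet {x | Q j x = v}) (F : (Fin (k + 1) → V) → ℝ)
    (ε : ℝ) (hε : 0 < ε) : ∃ N : ℕ, ∀ n : Fin (k + 1) → ℕ, Adm N n →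
      |∫ x, F (fun j => Q j (T^[n j] x)) ∂μ - ∫ x, F (fun j => Q j (x j)) ∂(Measure.pi fun _ : Fin (k + 1) => μ)| < ε := by
  classical
  set M : ℝ := 1 + ∑ v, |F v| with hM
  have hMpos : 0 < M := by
    have : 0 ≤ ∑ v, |F v| := Finset.sum_nonneg fun v _ => abs_nonneg _
    linarith
  choose N hN using fun v : Fin (k + 1) → V =>
    hk (fun j => {x | Q j x = v j}) (fun j => hQ j (v j)) (ε / M) (by positivity)
  refine ⟨Finset.univ.sup N, fun n hn => ?_⟩
  have e1 : ∀ v : Fin (k + 1) → V, {x | (fun j => Q j (T^[n j] x)) = v} =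
      ⋂ j, T^[n j] ⁻¹' {x | Q j x = v j} := by
    intro v
    ext x
    simp only [mem_ofPred_eq, mem_iInter, mem_preimage, funext_iff]
  have e2 : ∀ v : Fin (k + 1) → V, {x : Fin (k + 1) → X | (fun j => Q j (x j)) = v} =
      Set.pi univ fun j => {x | Q j x = v j} := by
    intro v
    ext x
    simp only [mem_ofPred_eq, Set.mem_pi, mem_univ, true_implies, funext_iff]
  rw [int_fin (m := μ) (fun x => fun j => Q j (T^[n j] x)) (fun v => by
      rw [e1]
      exact MeasurableSet.iInter fun j => (hTm.iterate (n j)) (hQ j (v j))),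
    int_fin (m := Measure.pi fun _ : Fin (k + 1) => μ) (fun x => fun j => Q j (x j)) (fun v => by
      rw [e2]
      exact MeasurableSet.univ_pi fun j => hQ j (v j)), ← Finset.sum_sub_distrib]
  refine (Finset.abs_sum_le_sum_abs _ _).trans_lt ?_
  have h3 : ∀ v ∈ (Finset.univ : Finset (Fin (k + 1) → V)),
      |F v * μ.real {x | (fun j => Q j (T^[n j] x)) = v} -
        F v * (Measure.pi fun _ : Fin (k + 1) => μ).real {x | (fun j => Q j (x j)) = v}| ≤ |F v| * (ε / M) := by
    intro v hv
    rw [← mul_sub, abs_mul]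
    refine mul_le_mul_of_nonneg_left ?_ (abs_nonneg _)
    have h4 := hN v n hn.1 (fun i => (Nat.add_le_add_left (Finset.le_sup hv) _).trans (hn.2 i))
    rw [e1, e2, measureReal_def (μ := Measure.pi fun _ : Fin (k + 1) => μ), Measure.pi_pi, ENNReal.toReal_prod]
    exact h4.le
  refine (Finset.sum_le_sum h3).trans_lt ?_
  rw [← Finset.sum_mul, mul_div_assoc', div_lt_iff₀ hMpos]
  nlinarith

/-- mixing of order at least one implies mixing -/
theorem mix2_of_mixK {T : X → X} {k : ℕ} (hk1 : 1 ≤ k) (hk : MixK μ T k) :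
    ∀ A B : Set X, MeasurableSet A → MeasurableSet B →
      Tendsto (fun n : ℕ => μ.real (A ∩ T^[n] ⁻¹' B)) atTop (𝓝 (μ.real A * μ.real B)) := by
  intro A B hA hB
  rw [Metric.tendsto_atTop]
  intro ε hε
  obtain ⟨l, rfl⟩ := Nat.exists_eq_add_of_le' hk1
  obtain ⟨N, hN⟩ := hk (Fin.cons A (Fin.cons B fun _ => univ)) (by
    intro i
    refine Fin.cases ?_ (fun i => ?_) i
    · exact hA
    · refine Fin.cases ?_ (fun i => ?_) i
      · exact hB
      · exact MeasurableSet.univ) ε hε
  refine ⟨N, fun n hn => ?_⟩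
  have h1 := hN (Fin.cons 0 (fun i : Fin (l + 1) => n + (i : ℕ) * N)) rfl (by
    intro i
    refine Fin.cases ?_ (fun i => ?_) i
    · simp only [Fin.castSucc_zero, Fin.cons_zero, Fin.cons_succ, Fin.val_zero]
      omega
    · have e : (i.succ).castSucc = (i.castSucc).succ := rfl
      rw [e]
      simp only [Fin.cons_succ, Fin.val_castSucc, Fin.val_succ]
      have : ((i : ℕ) + 1) * N = (i : ℕ) * N + N := by ring
      omega)
  rw [Real.dist_eq]
  refine lt_of_le_of_lt (le_of_eq ?_) h1
  congr 2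
  · congr 1
    ext x
    simp only [mem_inter_iff, mem_preimage, mem_iInter]
    constructor
    · rintro ⟨h2, h3⟩ i
      refine Fin.cases ?_ (fun i => ?_) i
      · exact h2
      · refine Fin.cases ?_ (fun i => ?_) i
        · simp only [Fin.cons_succ, Fin.cons_zero, Fin.val_zero, Nat.zero_mul, Nat.add_zero]
          exact h3
        · simp only [Fin.cons_succ]
          trivial
    · intro h
      refine ⟨h 0, ?_⟩
      have h2 := h (Fin.succ 0)
      simp only [Fin.cons_succ, Fin.cons_zero, Fin.val_zero, Nat.zero_mul, Nat.add_zero] at h2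
      exact h2
  · rw [Fin.prod_univ_succ, Fin.prod_univ_succ]
    simp

lemma prod_sub_le {J : Type} (s : Finset J) (a b : J → ℝ) (ha : ∀ j, 0 ≤ a j ∧ a j ≤ 1)
    (hb : ∀ j, 0 ≤ b j ∧ b j ≤ 1) : |∏ j ∈ s, a j - ∏ j ∈ s, b j| ≤ ∑ j ∈ s, |a j - b j| := by
  classical
  induction s using Finset.induction_on with
  | empty => simp
  | insert i s hi ih =>
    rw [Finset.prod_insert hi, Finset.prod_insert hi, Finset.sum_insert hi]
    have e : a i * ∏ j ∈ s, a j - b i * ∏ j ∈ s, b j =
        (a i - b i) * ∏ j ∈ s, a j + b i * (∏ j ∈ s, a j - ∏ j ∈ s, b j) := by ring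
    rw [e]
    refine (abs_add_le _ _).trans (add_le_add ?_ ?_)
    · rw [abs_mul]
      have h1 : |∏ j ∈ s, a j| ≤ 1 := by
        rw [abs_of_nonneg (Finset.prod_nonneg fun j _ => (ha j).1)]
        exact Finset.prod_le_one (fun j _ => (ha j).1) fun j _ => (ha j).2
      calc |a i - b i| * |∏ j ∈ s, a j| ≤ |a i - b i| * 1 := mul_le_mul_of_nonneg_left h1 (abs_nonneg _)
        _ = _ := mul_one _
    · rw [abs_mul, abs_of_nonneg (hb i).1]
      calc b i * |∏ j ∈ s, a j - ∏ j ∈ s, b j| ≤ 1 * |∏ j ∈ s, a j - ∏ j ∈ s, b j| :=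
            mul_le_mul_of_nonneg_right (hb i).2 (abs_nonneg _)
        _ = |∏ j ∈ s, a j - ∏ j ∈ s, b j| := one_mul _
        _ ≤ _ := ih

lemma inter_sub_le {Z J : Type} [MeasurableSpace Z] [Fintype J] (m : Measure Z) [IsProbabilityMeasure m]
    (U V : J → Set Z) (hU : ∀ j, MeasurableSet (U j)) (hV : ∀ j, MeasurableSet (V j)) :
    |m.real (⋂ j, U j) - m.real (⋂ j, V j)| ≤ ∑ j, m.real (U j ∆ V j) := by
  have h1 : |m.real (⋂ j, U j) - m.real (⋂ j, V j)| ≤ m.real ((⋂ j, U j) ∆ (⋂ j, V j)) :=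
    abs_measureReal_sub_le_measureReal_symmDiff (MeasurableSet.iInter hU).nullMeasurableSet
      (MeasurableSet.iInter hV).nullMeasurableSet
  refine h1.trans ?_
  have h2 : (⋂ j, U j) ∆ (⋂ j, V j) ⊆ ⋃ j, U j ∆ V j := by
    intro z hz
    rw [mem_iUnion]
    by_contra hcon
    push Not at hcon
    have h3 : ∀ j, z ∈ U j ↔ z ∈ V j := by
      intro j
      have := hcon j
      rw [mem_symmDiff] at this
      tauto
    rw [mem_symmDiff, mem_iInter, mem_iInter] at hz
    simp only [h3] at hz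
    tauto
  refine (measureReal_mono h2).trans ?_
  exact measureReal_iUnion_fintype_le _

end transfer

end Pool.Agent.R202.MM
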